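import Mathlib

set_option autoImplicit false

open Matrix

namespace Pool.Agent.H13.LSP

/-- Gram determinant of the first `k` vectors of the sequence `C`. -/
def gramDet {n : ℕ} (k : ℕ) (C : ℕ → Fin n → ℝ) : ℝ :=
  (Matrix.of fun i j : Fin k => C i ⬝ᵥ C j).det

section aux

variable {n : ℕ}

/-- rows of the first `k` vectors -/
def rowsM (k : ℕ) (C : ℕ → Fin n → ℝ) : Matrix (Fin k) (Fin n) ℝ := Matrix.of fun i => C i

/-- projection to the orthogonal complement -/
noncomputable def projT (k : ℕ) (C : ℕ → Fin n → ℝ) : Matrix (Fin n) (Fin n) ℝ :=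
  1 - (rowsM k C)ᵀ * ((rowsM k C) * (rowsM k C)ᵀ)⁻¹ * (rowsM k C)

lemma gram_eq (k : ℕ) (C : ℕ → Fin n → ℝ) :
    (Matrix.of fun i j : Fin k => C i ⬝ᵥ C j) = rowsM k C * (rowsM k C)ᵀ := by
  ext i j
  simp [rowsM, Matrix.mul_apply, dotProduct]

lemma gramDet_eq (k : ℕ) (C : ℕ → Fin n → ℝ) :
    gramDet k C = (rowsM k C * (rowsM k C)ᵀ).det := by
  rw [gramDet, gram_eq]

lemma gramDet_zero (C : ℕ → Fin n → ℝ) : gramDet 0 C = 1 := by
  simp [gramDet]

lemma projT_mul (k : ℕ) (C : ℕ → Fin n → ℝ) (h : gramDet k C ≠ 0) :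
    projT k C * (rowsM k C)ᵀ = 0 := by
  rw [gramDet_eq] at h
  have hu : IsUnit (rowsM k C * (rowsM k C)ᵀ).det := isUnit_iff_ne_zero.2 h
  unfold projT
  rw [Matrix.sub_mul, Matrix.one_mul, Matrix.mul_assoc, Matrix.mul_assoc,
    Matrix.nonsing_inv_mul _ hu, Matrix.mul_one, sub_self]

lemma projT_transpose (k : ℕ) (C : ℕ → Fin n → ℝ) : (projT k C)ᵀ = projT k C := by
  unfold projT
  rw [Matrix.transpose_sub, Matrix.transpose_one, Matrix.transpose_mul, Matrix.transpose_mul,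
    Matrix.transpose_transpose, Matrix.transpose_nonsing_inv, Matrix.transpose_mul,
    Matrix.transpose_transpose, Matrix.mul_assoc]

lemma projT_idem (k : ℕ) (C : ℕ → Fin n → ℝ) (h : gramDet k C ≠ 0) :
    projT k C * projT k C = projT k C := by
  have h1 := projT_mul k C h
  have h2 : projT k C * projT k C = projT k C * (1 - (rowsM k C)ᵀ *
      ((rowsM k C) * (rowsM k C)ᵀ)⁻¹ * (rowsM k C)) := rfl
  rw [h2, Matrix.mul_sub, Matrix.mul_one, Matrix.mul_assoc, ← Matrix.mul_assoc, h1,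
    Matrix.zero_mul, sub_zero]

lemma projT_quad (k : ℕ) (C : ℕ → Fin n → ℝ) (h : gramDet k C ≠ 0) (v w : Fin n → ℝ) :
    (projT k C *ᵥ v) ⬝ᵥ (projT k C *ᵥ w) = v ⬝ᵥ (projT k C *ᵥ w) := by
  have h1 : projT k C *ᵥ v = v ᵥ* projT k C := by
    conv_lhs => rw [← projT_transpose k C]
    rw [Matrix.mulVec_transpose]
  rw [h1, ← Matrix.dotProduct_mulVec, Matrix.mulVec_mulVec, projT_idem k C h]

lemma gramDet_update (k : ℕ) (C : ℕ → Fin n → ℝ) (h : gramDet k C ≠ 0) (v : Fin n → ℝ) :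
    gramDet (k + 1) (Function.update C k v) = gramDet k C * (v ⬝ᵥ (projT k C *ᵥ v)) := by
  have hdet : (rowsM k C * (rowsM k C)ᵀ).det ≠ 0 := by rwa [← gramDet_eq]
  have hu : IsUnit (rowsM k C * (rowsM k C)ᵀ).det := isUnit_iff_ne_zero.2 hdet
  let _ : Invertible (rowsM k C * (rowsM k C)ᵀ) := Matrix.invertibleOfIsUnitDet _ hu
  have h1 : (Matrix.of fun i j : Fin (k + 1) => (Function.update C k v) i ⬝ᵥ
      (Function.update C k v) j) = Matrix.reindex finSumFinEquiv finSumFinEquiv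
      (Matrix.fromBlocks (rowsM k C * (rowsM k C)ᵀ)
        (Matrix.of fun (i : Fin k) (_ : Fin 1) => C i ⬝ᵥ v)
        (Matrix.of fun (_ : Fin 1) (j : Fin k) => v ⬝ᵥ C j)
        (Matrix.of fun (_ _ : Fin 1) => v ⬝ᵥ v)) := by
    ext i j
    obtain ⟨i, rfl⟩ := finSumFinEquiv.surjective i
    obtain ⟨j, rfl⟩ := finSumFinEquiv.surjective j
    have hne : ∀ i : Fin k, (Function.update C k v) (i : ℕ) = C i := by
      intro i
      exact Function.update_of_ne (by have := i.2; omega) _ _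
    rcases i with i | i <;> rcases j with j | j
    · simp [hne, rowsM, Matrix.mul_apply, dotProduct]
    · simp [hne]
    · simp [hne]
    · simp
  unfold gramDet
  rw [h1, Matrix.det_reindex_self, Matrix.det_fromBlocks₁₁, gram_eq]
  congr 1
  rw [Matrix.det_fin_one]
  simp only [Matrix.sub_apply, Matrix.of_apply]
  unfold projT
  rw [Matrix.sub_mulVec, Matrix.one_mulVec, dotProduct_sub]
  congr 1
  rw [← Matrix.mulVec_mulVec, ← Matrix.mulVec_mulVec]
  rw [Matrix.dotProduct_mulVec, Matrix.vecMul_transpose]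
  have h2 : rowsM k C *ᵥ v = fun i : Fin k => C i ⬝ᵥ v := by
    funext i; rfl
  rw [h2, Matrix.invOf_eq_nonsing_inv, Matrix.mul_assoc]
  simp only [Matrix.mul_apply, Matrix.of_apply, dotProduct, Matrix.mulVec]
  apply Finset.sum_congr rfl
  intro i _
  congr 1
  apply Finset.sum_congr rfl
  intro j _
  ring

lemma exists_of_projT_eq_zero (k : ℕ) (C : ℕ → Fin n → ℝ) (v : Fin n → ℝ)
    (h : projT k C *ᵥ v = 0) : ∃ w : Fin k → ℝ, v = ∑ i, w i • C i := by
  refine ⟨((rowsM k C) * (rowsM k C)ᵀ)⁻¹ *ᵥ ((rowsM k C) *ᵥ v), ?_⟩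
  unfold projT at h
  rw [Matrix.sub_mulVec, Matrix.one_mulVec, sub_eq_zero] at h
  conv_lhs => rw [h]
  rw [← Matrix.mulVec_mulVec, ← Matrix.mulVec_mulVec, Matrix.mulVec_transpose,
    Matrix.vecMul_eq_sum]
  rfl

lemma projT_mulVec_C (k : ℕ) (C : ℕ → Fin n → ℝ) (h : gramDet k C ≠ 0) (i : Fin k) :
    projT k C *ᵥ (C i) = 0 := by
  have h1 := projT_mul k C h
  funext l
  have h2 := congrFun (congrFun h1 l) i
  simpa [Matrix.mul_apply, Matrix.mulVec, dotProduct, rowsM] using h2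

lemma dps_nonneg (v : Fin n → ℝ) : 0 ≤ v ⬝ᵥ v :=
  Finset.sum_nonneg fun i _ => mul_self_nonneg (v i)

/-- the inductive statement -/
def Good (ν : Fin n → Fin n → ℝ) (C : ℕ → Fin n → ℝ) (k : ℕ) : Prop :=
  ∃ (σ : Fin k → Fin n) (s : Fin k → ℝ), Function.Injective σ ∧ (∀ i, s i = 1 ∨ s i = -1) ∧
    (∀ i : Fin k, C i = s i • ν (σ i)) ∧ 0 < gramDet k C

lemma coeff_zero (ν : Fin n → Fin n → ℝ) (hν : (Matrix.of ν).det ≠ 0) (C : ℕ → Fin n → ℝ) (k : ℕ)
    (σ : Fin k → Fin n) (s : Fin k → ℝ) (hC : ∀ i : Fin k, C i = s i • ν (σ i))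
    (z : Fin n → ℝ) (hz : projT k C *ᵥ (∑ j, z j • ν j) = 0) (j : Fin n)
    (hj : ∀ i, σ i ≠ j) : z j = 0 := by
  obtain ⟨w, hw⟩ := exists_of_projT_eq_zero k C _ hz
  let z' : Fin n → ℝ := ∑ i, (w i * s i) • Pi.single (σ i) (1 : ℝ)
  have h1 : (z - z') ᵥ* (Matrix.of ν) = 0 := by
    rw [Matrix.sub_vecMul, sub_eq_zero]
    have h2 : z ᵥ* (Matrix.of ν) = ∑ j, z j • ν j := Matrix.vecMul_eq_sum _ _
    rw [h2, hw]
    simp only [z']
    rw [Matrix.sum_vecMul]
    apply Finset.sum_congr rfl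
    intro i _
    rw [Matrix.smul_vecMul, Matrix.single_one_vecMul, hC i, smul_smul]
    rfl
  have h3 := Matrix.eq_zero_of_vecMul_eq_zero hν h1
  have h4 := congrFun h3 j
  simp only [Pi.sub_apply, Pi.zero_apply, z', Finset.sum_apply, Pi.smul_apply, smul_eq_mul] at h4
  rw [Finset.sum_eq_zero, sub_zero] at h4
  · exact h4
  · intro i _
    rw [Pi.single_eq_of_ne (hj i).symm, mul_zero]

lemma good_step (ν : Fin n → Fin n → ℝ) (hν : (Matrix.of ν).det ≠ 0)
    (V : Set (Fin n → ℝ)) (hV : ∀ v ∈ V, ∃ y : Fin n → ℝ, ∑ k, |y k| ≤ 1 ∧ v = ∑ k, y k • ν k)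
    (hν' : ∀ k, ν k ∈ V ∨ -ν k ∈ V) (C : ℕ → Fin n → ℝ) (k : ℕ) (hk : k < n) (hCk : C k ∈ V)
    (hmax : ∀ v ∈ V, gramDet (k + 1) (Function.update C k v) ≤ gramDet (k + 1) C)
    (hg : Good ν C k) : Good ν C (k + 1) := by
  obtain ⟨σ, s, hσ, hs, hC, hpos⟩ := hg
  have hne := hpos.ne'
  set T := projT k C with hT
  set τ : Fin n → Fin n → ℝ := fun j => T *ᵥ ν j with hτ
  set M := C k ⬝ᵥ (T *ᵥ C k) with hM
  have h1 : gramDet (k + 1) C = gramDet k C * M := by
    have := gramDet_update k C hne (C k)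
    rwa [Function.update_eq_self] at this
  have h2 : ∀ v ∈ V, v ⬝ᵥ (T *ᵥ v) ≤ M := by
    intro v hv
    have := hmax v hv
    rw [h1, gramDet_update k C hne v] at this
    exact le_of_mul_le_mul_left this hpos
  have h3 : ∀ j, τ j ⬝ᵥ τ j ≤ M := by
    intro j
    rw [hτ]
    simp only
    rw [hT, projT_quad k C hne]
    rcases hν' j with h | h
    · exact h2 _ h
    · have := h2 _ h
      rwa [Matrix.mulVec_neg, neg_dotProduct_neg] at this
  have hq0 : ∀ j, 0 ≤ τ j ⬝ᵥ τ j := fun j => dps_nonneg _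
  -- some index outside the range
  obtain ⟨j0, hj0⟩ : ∃ j0 : Fin n, ∀ i, σ i ≠ j0 := by
    by_contra hcon
    push Not at hcon
    have := Fintype.card_le_of_surjective σ hcon
    simp at this
    omega
  have hMpos : 0 < M := by
    refine lt_of_lt_of_le ?_ (h3 j0)
    refine lt_of_le_of_ne (hq0 j0) ?_
    intro h0
    have h4 : τ j0 = 0 := by
      rwa [eq_comm, dotProduct_self_eq_zero] at h0
    have h5 := coeff_zero ν hν C k σ s hC (Pi.single j0 1) (by
      rw [← h4, hτ]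
      simp only
      congr 1
      rw [Finset.sum_eq_single j0]
      · simp
      · intro b _ hb
        rw [Pi.single_eq_of_ne hb, zero_smul]
      · simp) j0 hj0
    simp at h5
  obtain ⟨y, hy1, hy⟩ := hV _ hCk
  have hTC : T *ᵥ C k = ∑ j, y j • τ j := by
    rw [hy, Matrix.mulVec_sum]
    apply Finset.sum_congr rfl
    intro j _
    rw [Matrix.mulVec_smul]
  have hMsum : M = ∑ i, ∑ j, y i * y j * (τ i ⬝ᵥ τ j) := by
    rw [hM, ← projT_quad k C hne, ← hT, hTC, sum_dotProduct]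
    apply Finset.sum_congr rfl
    intro i _
    rw [dotProduct_sum]
    apply Finset.sum_congr rfl
    intro j _
    rw [smul_dotProduct, dotProduct_smul, smul_eq_mul, smul_eq_mul]
    ring
  have hc : ∀ i j, |τ i ⬝ᵥ τ j| ≤ M := by
    intro i j
    have e1 : 0 ≤ (τ i - τ j) ⬝ᵥ (τ i - τ j) := dps_nonneg _
    have e2 : 0 ≤ (τ i + τ j) ⬝ᵥ (τ i + τ j) := dps_nonneg _
    rw [sub_dotProduct, dotProduct_sub, dotProduct_sub, dotProduct_comm (τ j) (τ i)] at e1
    rw [add_dotProduct, dotProduct_add, dotProduct_add, dotProduct_comm (τ j) (τ i)] at e2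
    have e3 := h3 i
    have e4 := h3 j
    rw [abs_le]
    constructor <;> linarith
  have ht : ∀ i j, 0 ≤ |y i| * |y j| * M - y i * y j * (τ i ⬝ᵥ τ j) := by
    intro i j
    have e1 : y i * y j * (τ i ⬝ᵥ τ j) ≤ |y i| * |y j| * |τ i ⬝ᵥ τ j| := by
      rw [← abs_mul, ← abs_mul]
      exact le_abs_self _
    have e2 : |y i| * |y j| * |τ i ⬝ᵥ τ j| ≤ |y i| * |y j| * M :=
      mul_le_mul_of_nonneg_left (hc i j) (by positivity)
    linarith
  have hsum : ∑ i, ∑ j, (|y i| * |y j| * M - y i * y j * (τ i ⬝ᵥ τ j)) ≤ 0 := by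
    have e1 : ∑ i, ∑ j, (|y i| * |y j| * M - y i * y j * (τ i ⬝ᵥ τ j)) =
        (∑ i, |y i|) * (∑ i, |y i|) * M - M := by
      simp only [Finset.sum_sub_distrib]
      rw [← hMsum, Finset.sum_mul_sum, Finset.sum_mul]
      simp only [Finset.sum_mul]
    rw [e1]
    have e2 : 0 ≤ ∑ i, |y i| := Finset.sum_nonneg fun i _ => abs_nonneg _
    nlinarith [mul_le_one₀ hy1 e2 hy1]
  have hzero : ∀ i j, |y i| * |y j| * M - y i * y j * (τ i ⬝ᵥ τ j) = 0 := by
    intro i j
    have e1 := (Finset.sum_eq_zero_iff_of_nonneg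
      (fun i _ => Finset.sum_nonneg fun j _ => ht i j)).1
      (le_antisymm hsum (Finset.sum_nonneg fun i _ => Finset.sum_nonneg fun j _ => ht i j))
      i (Finset.mem_univ _)
    exact (Finset.sum_eq_zero_iff_of_nonneg (fun j _ => ht i j)).1 e1 j (Finset.mem_univ _)
  obtain ⟨i0, hi0⟩ : ∃ i0, y i0 ≠ 0 := by
    by_contra hcon
    push Not at hcon
    rw [hMsum] at hMpos
    simp [hcon] at hMpos
  have hq : ∀ j, y j ≠ 0 → τ j ⬝ᵥ τ j = M := by
    intro j hj
    have e1 := hzero j j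
    rw [← abs_mul, abs_mul_self, ← mul_sub] at e1
    rcases mul_eq_zero.1 e1 with e | e
    · exact absurd (mul_self_eq_zero.1 e) hj
    · linarith
  have hi0' : ∀ i, σ i ≠ i0 := by
    intro i hi
    have e1 := projT_mulVec_C k C hne i
    rw [hC i, hi, Matrix.mulVec_smul] at e1
    have e2 : τ i0 = 0 := by
      rcases hs i with h | h
      · rw [h, one_smul] at e1; exact e1
      · rw [h, neg_smul, one_smul, neg_eq_zero] at e1; exact e1
    have e3 := hq i0 hi0
    rw [e2, dotProduct_zero] at e3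
    linarith
  have hothers : ∀ j, j ≠ i0 → y j = 0 := by
    intro j hj
    by_contra hyj
    set u : Fin n → ℝ := fun l => if l = i0 then |y j| * y i0 else
      if l = j then - (|y i0| * y j) else 0 with hu
    have e1 : ∑ l, u l • ν l = (|y j| * y i0) • ν i0 - (|y i0| * y j) • ν j := by
      rw [← Finset.add_sum_erase _ _ (Finset.mem_univ i0),
        ← Finset.add_sum_erase _ _ (Finset.mem_erase.2 ⟨hj, Finset.mem_univ j⟩)]
      rw [Finset.sum_eq_zero, add_zero]
      · simp only [hu, if_true, if_neg hj, neg_smul]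
        rw [sub_eq_add_neg]
      · intro l hl
        rw [Finset.mem_erase, Finset.mem_erase] at hl
        simp only [hu, if_neg hl.2.1, if_neg hl.1, zero_smul]
    have e2 : T *ᵥ (∑ l, u l • ν l) = (|y j| * y i0) • τ i0 - (|y i0| * y j) • τ j := by
      rw [e1, Matrix.mulVec_sub, Matrix.mulVec_smul, Matrix.mulVec_smul]
    have e3 : (T *ᵥ (∑ l, u l • ν l)) ⬝ᵥ (T *ᵥ (∑ l, u l • ν l)) = 0 := by
      rw [e2, sub_dotProduct, dotProduct_sub, dotProduct_sub]
      simp only [smul_dotProduct, dotProduct_smul, smul_eq_mul]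
      rw [dotProduct_comm (τ j) (τ i0), hq i0 hi0, hq j hyj]
      have e4 := hzero i0 j
      have a1 : |y i0| * |y i0| = y i0 * y i0 := abs_mul_abs_self _
      have a2 : |y j| * |y j| = y j * y j := abs_mul_abs_self _
      have e5 : y i0 * y j * (τ i0 ⬝ᵥ τ j) = |y i0| * |y j| * M := by linarith
      calc _ = (|y j| * |y j|) * (y i0 * y i0) * M + (|y i0| * |y i0|) * (y j * y j) * M -
            2 * (|y i0| * |y j|) * (y i0 * y j * (τ i0 ⬝ᵥ τ j)) := by ring
        _ = 0 := by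
          rw [e5]
          calc _ = (|y j| * |y j|) * (y i0 * y i0) * M + (|y i0| * |y i0|) * (y j * y j) * M -
            2 * (|y i0| * |y i0|) * (|y j| * |y j|) * M := by ring
            _ = 0 := by rw [a1, a2]; ring
    rw [dotProduct_self_eq_zero] at e3
    have e6 := coeff_zero ν hν C k σ s hC u e3 i0 hi0'
    simp only [hu, if_true] at e6
    rcases mul_eq_zero.1 e6 with e | e
    · exact hyj (abs_eq_zero.1 e)
    · exact hi0 e
  have hyC : C k = y i0 • ν i0 := by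
    rw [hy, Finset.sum_eq_single i0]
    · intro j _ hj; rw [hothers j hj, zero_smul]
    · simp
  have hyi : y i0 = 1 ∨ y i0 = -1 := by
    have e1 : M = y i0 * y i0 * M := by
      conv_lhs => rw [hM, ← projT_quad k C hne, ← hT, hyC, Matrix.mulVec_smul,
        smul_dotProduct, dotProduct_smul, smul_eq_mul, smul_eq_mul]
      have := hq i0 hi0
      rw [hτ] at this
      simp only at this
      rw [this]; ring
    have e2 : y i0 * y i0 = 1 := by
      have : (y i0 * y i0 - 1) * M = 0 := by linarith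
      rcases mul_eq_zero.1 this with e | e
      · linarith
      · exact absurd e hMpos.ne'
    exact mul_self_eq_one_iff.1 e2
  refine ⟨Fin.snoc σ i0, Fin.snoc s (y i0), ?_, ?_, ?_, ?_⟩
  · intro a b
    refine Fin.lastCases ?_ (fun a => ?_) a <;> refine Fin.lastCases ?_ (fun b => ?_) b
    · simp
    · simp only [Fin.snoc_last, Fin.snoc_castSucc]
      intro h
      exact absurd h.symm (hi0' b)
    · simp only [Fin.snoc_last, Fin.snoc_castSucc]
      intro h
      exact absurd h (hi0' a)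
    · simp only [Fin.snoc_castSucc]
      intro h
      rw [hσ h]
  · intro a
    refine Fin.lastCases ?_ (fun a => ?_) a
    · simpa using hyi
    · simpa using hs a
  · intro a
    refine Fin.lastCases ?_ (fun a => ?_) a
    · simpa using hyC
    · simpa using hC a
  · rw [h1]; exact mul_pos hpos hMpos

end aux

theorem greedy_gram {n : ℕ} (ν : Fin n → Fin n → ℝ) (hν : (Matrix.of ν).det ≠ 0)
    (V : Set (Fin n → ℝ)) (hV : ∀ v ∈ V, ∃ y : Fin n → ℝ, ∑ k, |y k| ≤ 1 ∧ v = ∑ k, y k • ν k)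
    (hν' : ∀ k, ν k ∈ V ∨ -ν k ∈ V) (C : ℕ → Fin n → ℝ) (hC : ∀ k, k < n → C k ∈ V)
    (hmax : ∀ k, k < n → ∀ v ∈ V,
      gramDet (k + 1) (Function.update C k v) ≤ gramDet (k + 1) C) :
    gramDet n C = (Matrix.of ν).det ^ 2 := by
  have hgood : ∀ k, k ≤ n → Good ν C k := by
    intro k
    induction k with
    | zero =>
      intro _
      refine ⟨Fin.elim0, Fin.elim0, fun a => a.elim0, fun a => a.elim0, fun a => a.elim0, ?_⟩
      rw [gramDet_zero]; exact one_pos
    | succ k ih =>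
      intro hk
      exact good_step ν hν V hV hν' C k (by omega) (hC k (by omega)) (hmax k (by omega))
        (ih (by omega))
  obtain ⟨σ, s, hσ, hs, hCs, -⟩ := hgood n le_rfl
  have hbij : Function.Bijective σ := Finite.injective_iff_bijective.1 hσ
  let e : Equiv.Perm (Fin n) := Equiv.ofBijective σ hbij
  have h1 : rowsM n C = Matrix.diagonal s * (Matrix.of ν).submatrix e id := by
    ext i j
    rw [Matrix.diagonal_mul]
    simp [rowsM, hCs, e]
  rw [gramDet_eq, Matrix.det_mul, Matrix.det_transpose, h1, Matrix.det_mul, Matrix.det_permute,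
    Matrix.det_diagonal]
  have h2 : (∏ i, s i) * (∏ i, s i) = 1 := by
    rw [← Finset.prod_mul_distrib]
    apply Finset.prod_eq_one
    intro i _
    rcases hs i with h | h <;> rw [h] <;> norm_num
  have h3 : (((Equiv.Perm.sign e : ℤˣ) : ℤ) : ℝ) * (((Equiv.Perm.sign e : ℤˣ) : ℤ) : ℝ) = 1 := by
    rcases Int.units_eq_one_or (Equiv.Perm.sign e) with h | h <;> rw [h] <;> norm_num
  calc _ = ((∏ i, s i) * (∏ i, s i)) * ((((Equiv.Perm.sign e : ℤˣ) : ℤ) : ℝ) *
        (((Equiv.Perm.sign e : ℤˣ) : ℤ) : ℝ)) * (Matrix.of ν).det ^ 2 := by ring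
    _ = _ := by rw [h2, h3]; ring


/-- the greedy vectors are the `±ν` in some order -/
theorem greedy_perm {n : ℕ} (ν : Fin n → Fin n → ℝ) (hν : (Matrix.of ν).det ≠ 0)
    (V : Set (Fin n → ℝ)) (hV : ∀ v ∈ V, ∃ y : Fin n → ℝ, ∑ k, |y k| ≤ 1 ∧ v = ∑ k, y k • ν k)
    (hν' : ∀ k, ν k ∈ V ∨ -ν k ∈ V) (C : ℕ → Fin n → ℝ) (hC : ∀ k, k < n → C k ∈ V)
    (hmax : ∀ k, k < n → ∀ v ∈ V,
      gramDet (k + 1) (Function.update C k v) ≤ gramDet (k + 1) C) :
    ∃ σ : Equiv.Perm (Fin n), ∀ k : Fin n, C k = ν (σ k) ∨ C k = -ν (σ k) := by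
  have hgood : ∀ k, k ≤ n → Good ν C k := by
    intro k
    induction k with
    | zero =>
      intro _
      refine ⟨Fin.elim0, Fin.elim0, fun a => a.elim0, fun a => a.elim0, fun a => a.elim0, ?_⟩
      rw [gramDet_zero]; exact one_pos
    | succ k ih =>
      intro hk
      exact good_step ν hν V hV hν' C k (by omega) (hC k (by omega)) (hmax k (by omega))
        (ih (by omega))
  obtain ⟨σ, s, hσ, hs, hCs, -⟩ := hgood n le_rfl
  have hbij : Function.Bijective σ := Finite.injective_iff_bijective.1 hσ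
  refine ⟨Equiv.ofBijective σ hbij, fun k => ?_⟩
  rw [Equiv.ofBijective_apply, hCs k]
  rcases hs k with h | h
  · left; rw [h, one_smul]
  · right; rw [h, neg_smul, one_smul]

section facets

variable {n m : ℕ}

lemma cube_coord (a : Fin m → Fin n → ℝ) (b : Fin m → ℝ)
    (M : Matrix (Fin n) (Fin n) ℝ) (c : Fin n → ℝ) (hM : M.det ≠ 0)
    (hP : {x : Fin n → ℝ | ∀ r, a r ⬝ᵥ x ≤ b r} =
      (fun t => c + M *ᵥ t) '' {t | ∀ i, 0 ≤ t i ∧ t i ≤ 1}) (t : Fin n → ℝ) :
    (∀ r, (a r ᵥ* M) ⬝ᵥ t ≤ b r - a r ⬝ᵥ c) ↔ ∀ i, 0 ≤ t i ∧ t i ≤ 1 := by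
  have h1 : (c + M *ᵥ t) ∈ {x : Fin n → ℝ | ∀ r, a r ⬝ᵥ x ≤ b r} ↔
      ∀ r, (a r ᵥ* M) ⬝ᵥ t ≤ b r - a r ⬝ᵥ c := by
    rw [Set.mem_ofPred_eq]
    apply forall_congr'
    intro r
    rw [dotProduct_add, Matrix.dotProduct_mulVec]
    constructor <;> intro h <;> linarith
  rw [← h1, hP]
  constructor
  · rintro ⟨t', ht', h⟩
    have h2 : M *ᵥ t' = M *ᵥ t := add_left_cancel h
    have h3 : M *ᵥ (t' - t) = 0 := by rw [Matrix.mulVec_sub, h2, sub_self]
    have h4 := Matrix.eq_zero_of_mulVec_eq_zero hM h3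
    rw [sub_eq_zero.1 h4] at ht'
    exact ht'
  · intro h
    exact ⟨t, h, rfl⟩

lemma dot_single_add (w t : Fin n → ℝ) (k : Fin n) (ε : ℝ) :
    w ⬝ᵥ (t + ε • Pi.single k 1) = w ⬝ᵥ t + ε * w k := by
  rw [dotProduct_add, dotProduct_smul, dotProduct_single_one, smul_eq_mul]

lemma facet_exists (w : Fin m → Fin n → ℝ) (β : Fin m → ℝ)
    (h : ∀ t : Fin n → ℝ, (∀ r, w r ⬝ᵥ t ≤ β r) ↔ ∀ i, 0 ≤ t i ∧ t i ≤ 1) (k : Fin n)
    (t0 : Fin n → ℝ) (ht0 : ∀ i, i ≠ k → t0 i = 1 / 2) (htk : 0 ≤ t0 k ∧ t0 k ≤ 1) (σ : ℝ)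
    (hσ : ∀ ε : ℝ, 0 < ε → ¬ (0 ≤ t0 k + ε * σ ∧ t0 k + ε * σ ≤ 1)) :
    ∃ r, w r ⬝ᵥ t0 = β r ∧ 0 < σ * w r k ∧ ∀ i, i ≠ k → w r i = 0 := by
  have hin : ∀ r, w r ⬝ᵥ t0 ≤ β r := by
    rw [h]
    intro i
    by_cases hi : i = k
    · rw [hi]; exact htk
    · rw [ht0 i hi]; norm_num
  have h1 : ∃ r, w r ⬝ᵥ t0 = β r ∧ 0 < σ * w r k := by
    by_contra hcon
    push Not at hcon
    have hev : ∀ᶠ ε : ℝ in nhdsWithin 0 (Set.Ioi 0),
        ∀ r, w r ⬝ᵥ t0 + ε * (σ * w r k) ≤ β r := by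
      rw [Filter.eventually_all]
      intro r
      rcases (hin r).lt_or_eq with hlt | heq
      · have hc : Filter.Tendsto (fun ε : ℝ => w r ⬝ᵥ t0 + ε * (σ * w r k))
            (nhdsWithin 0 (Set.Ioi 0)) (nhds (w r ⬝ᵥ t0 + 0 * (σ * w r k))) := by
          apply Filter.Tendsto.mono_left _ nhdsWithin_le_nhds
          exact (Continuous.tendsto (by fun_prop) 0)
        rw [zero_mul, add_zero] at hc
        exact (hc.eventually_lt_const hlt).mono fun _ h => h.le
      · filter_upwards [self_mem_nhdsWithin] with ε hε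
        have hε : 0 < ε := hε
        have := hcon r heq
        rw [heq]
        nlinarith
    obtain ⟨ε, h2, hε⟩ := (hev.and self_mem_nhdsWithin).exists
    have hε : 0 < ε := hε
    have h3 : ∀ r, w r ⬝ᵥ (t0 + (ε * σ) • Pi.single k 1) ≤ β r := by
      intro r
      rw [dot_single_add, mul_assoc]
      exact h2 r
    have h4 := (h _).1 h3 k
    apply hσ ε hε
    simpa using h4
  obtain ⟨r, hr1, hr2⟩ := h1
  refine ⟨r, hr1, hr2, ?_⟩
  intro i hi
  have hmem : ∀ δ : ℝ, |δ| ≤ 1 / 2 → w r ⬝ᵥ (t0 + δ • Pi.single i 1) ≤ β r := by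
    intro δ hδ
    refine (h _).2 ?_ r
    rw [abs_le] at hδ
    intro l
    by_cases hl : l = i
    · subst hl
      simp only [Pi.add_apply, Pi.smul_apply, Pi.single_eq_same, smul_eq_mul, mul_one]
      rw [ht0 l hi]
      constructor <;> linarith [hδ.1, hδ.2]
    · simp only [Pi.add_apply, Pi.smul_apply, Pi.single_eq_of_ne hl, smul_zero, add_zero]
      by_cases hlk : l = k
      · rw [hlk]; exact htk
      · rw [ht0 l hlk]; norm_num
  have h5 := hmem (1 / 2) (by norm_num [abs_of_pos])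
  have h6 := hmem (-(1 / 2)) (by norm_num [abs_of_pos])
  rw [dot_single_add, hr1] at h5 h6
  linarith

theorem facets (a : Fin m → Fin n → ℝ) (b : Fin m → ℝ)
    (M : Matrix (Fin n) (Fin n) ℝ) (c : Fin n → ℝ) (hM : M.det ≠ 0)
    (hP : {x : Fin n → ℝ | ∀ r, a r ⬝ᵥ x ≤ b r} =
      (fun t => c + M *ᵥ t) '' {t | ∀ i, 0 ≤ t i ∧ t i ≤ 1}) :
    (∀ r s j, 0 < a r j → a s j < 0 → (∀ l, a r j * a s l = a s j * a r l) →
      0 < -a s j * b r + a r j * b s ∧ ∃ y : Fin n → ℝ, ∑ k, |y k| ≤ 1 ∧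
        (fun l => (-a s j * a r l) / (-a s j * b r + a r j * b s)) = ∑ k, y k • (M⁻¹ k)) ∧
    (∀ k, ∃ r s j, 0 < a r j ∧ a s j < 0 ∧ (∀ l, a r j * a s l = a s j * a r l) ∧
      ((fun l => (-a s j * a r l) / (-a s j * b r + a r j * b s)) = M⁻¹ k ∨
        (fun l => (-a s j * a r l) / (-a s j * b r + a r j * b s)) = -(M⁻¹ k))) := by
  have hcube := cube_coord a b M c hM hP
  have hMu : IsUnit M.det := isUnit_iff_ne_zero.2 hM
  constructor
  · intro r s j hr hs hpar
    set u : Fin n → ℝ := fun l => -a s j * a r l with hu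
    set w : Fin n → ℝ := u ᵥ* M with hw
    have hur : u = (-a s j) • a r := by funext l; simp [hu]
    have hus : u = (-a r j) • a s := by
      funext l
      have := hpar l
      simp only [hu, Pi.smul_apply, smul_eq_mul]
      linarith
    have hwr : w = (-a s j) • (a r ᵥ* M) := by rw [hw, hur, Matrix.smul_vecMul]
    have hws : w = (-a r j) • (a s ᵥ* M) := by rw [hw, hus, Matrix.smul_vecMul]
    set t1 : Fin n → ℝ := fun k => if 0 ≤ w k then 1 else 0 with ht1
    set t2 : Fin n → ℝ := fun k => if 0 ≤ w k then 0 else 1 with ht2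
    have h1 := (hcube t1).2 (by
      intro i; simp only [ht1]; split_ifs <;> norm_num) r
    have h2 := (hcube t2).2 (by
      intro i; simp only [ht2]; split_ifs <;> norm_num) s
    have h3 : w ⬝ᵥ t1 - w ⬝ᵥ t2 = ∑ k, |w k| := by
      simp only [dotProduct]
      rw [← Finset.sum_sub_distrib]
      apply Finset.sum_congr rfl
      intro k _
      simp only [ht1, ht2]
      split_ifs with h
      · rw [abs_of_nonneg h]; ring
      · rw [abs_of_neg (not_le.1 h)]; ring
    have h4 : w ⬝ᵥ t1 ≤ -a s j * (b r - a r ⬝ᵥ c) := by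
      rw [hwr, smul_dotProduct, smul_eq_mul]
      exact mul_le_mul_of_nonneg_left h1 (by linarith)
    have h5 : - (w ⬝ᵥ t2) ≤ a r j * (b s - a s ⬝ᵥ c) := by
      rw [hws, smul_dotProduct, smul_eq_mul]
      have := mul_le_mul_of_nonneg_left h2 hr.le
      linarith
    have h6 : -a s j * (a r ⬝ᵥ c) = - (a r j * (a s ⬝ᵥ c)) := by
      have e1 : u ⬝ᵥ c = -a s j * (a r ⬝ᵥ c) := by rw [hur, smul_dotProduct, smul_eq_mul]
      have e2 : u ⬝ᵥ c = -a r j * (a s ⬝ᵥ c) := by rw [hus, smul_dotProduct, smul_eq_mul]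
      linarith
    have h7 : ∑ k, |w k| ≤ -a s j * b r + a r j * b s := by nlinarith
    have hwne : w ≠ 0 := by
      intro h0
      have h8 := Matrix.eq_zero_of_vecMul_eq_zero hM h0
      have h9 := congrFun h8 j
      simp only [hu, Pi.zero_apply] at h9
      rcases mul_eq_zero.1 h9 with e | e <;> linarith
    have h8 : 0 < ∑ k, |w k| := by
      obtain ⟨k, hk⟩ := Function.ne_iff.1 hwne
      exact Finset.sum_pos' (fun i _ => abs_nonneg _) ⟨k, Finset.mem_univ _, abs_pos.2 hk⟩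
    have h9 : 0 < -a s j * b r + a r j * b s := lt_of_lt_of_le h8 h7
    refine ⟨h9, fun k => w k / (-a s j * b r + a r j * b s), ?_, ?_⟩
    · simp only [abs_div, abs_of_pos h9]
      rw [← Finset.sum_div, div_le_one h9]
      exact h7
    · have e1 : w ᵥ* M⁻¹ = u := by
        rw [hw, Matrix.vecMul_vecMul, Matrix.mul_nonsing_inv _ hMu, Matrix.vecMul_one]
      funext l
      have e2 := congrFun e1 l
      have e3 : -a s j * a r l = u l := rfl
      rw [e3, ← e2, Matrix.vecMul_eq_sum, Finset.sum_apply, Finset.sum_apply, Finset.sum_div]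
      apply Finset.sum_congr rfl
      intro k _
      simp only [Pi.smul_apply, smul_eq_mul]
      ring
  · intro k
    obtain ⟨r, hr1, hr2, hr3⟩ := facet_exists (fun r => a r ᵥ* M) (fun r => b r - a r ⬝ᵥ c) hcube k
      (fun i => if i = k then 1 else 1 / 2) (by intro i hi; simp [hi]) (by simp) 1
      (by
        intro ε hε h
        simp only [if_true, mul_one] at h
        linarith [h.2])
    obtain ⟨s, hs1, hs2, hs3⟩ := facet_exists (fun r => a r ᵥ* M) (fun r => b r - a r ⬝ᵥ c) hcube k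
      (fun i => if i = k then 0 else 1 / 2) (by intro i hi; simp [hi]) (by simp) (-1)
      (by
        intro ε hε h
        simp only [if_true, zero_add, mul_neg, mul_one] at h
        linarith [h.1])
    set γ := (a r ᵥ* M) k with hγ
    set δ := - (a s ᵥ* M) k with hδ
    have hγpos : 0 < γ := by linarith
    have hδpos : 0 < δ := by linarith
    have har : a r = γ • (M⁻¹ k) := by
      have e1 : (a r ᵥ* M) = γ • Pi.single k 1 := by
        funext i
        by_cases hi : i = k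
        · rw [hi]; simp [hγ]
        · rw [hr3 i hi]; simp [hi]
      have e2 : a r = (a r ᵥ* M) ᵥ* M⁻¹ := by
        rw [Matrix.vecMul_vecMul, Matrix.mul_nonsing_inv _ hMu, Matrix.vecMul_one]
      rw [e2, e1, Matrix.smul_vecMul, Matrix.single_one_vecMul]
      rfl
    have has : a s = (-δ) • (M⁻¹ k) := by
      have e1 : (a s ᵥ* M) = (-δ) • Pi.single k 1 := by
        funext i
        by_cases hi : i = k
        · rw [hi]; simp [hδ]
        · rw [hs3 i hi]; simp [hi]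
      have e2 : a s = (a s ᵥ* M) ᵥ* M⁻¹ := by
        rw [Matrix.vecMul_vecMul, Matrix.mul_nonsing_inv _ hMu, Matrix.vecMul_one]
      rw [e2, e1, Matrix.smul_vecMul, Matrix.single_one_vecMul]
      rfl
    have hbr : b r = γ * (M⁻¹ k ⬝ᵥ c) + γ := by
      have e1 : (a r ᵥ* M) ⬝ᵥ (fun i => if i = k then (1 : ℝ) else 1 / 2) = γ := by
        simp only [dotProduct]
        rw [Finset.sum_eq_single k]
        · simp [hγ]
        · intro i _ hi; rw [hr3 i hi, zero_mul]
        · simp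
      rw [e1] at hr1
      have e2 : a r ⬝ᵥ c = γ * (M⁻¹ k ⬝ᵥ c) := by rw [har, smul_dotProduct, smul_eq_mul]
      linarith
    have hbs : b s = -δ * (M⁻¹ k ⬝ᵥ c) := by
      have e1 : (a s ᵥ* M) ⬝ᵥ (fun i => if i = k then (0 : ℝ) else 1 / 2) = 0 := by
        simp only [dotProduct]
        rw [Finset.sum_eq_single k]
        · simp
        · intro i _ hi; rw [hs3 i hi, zero_mul]
        · simp
      rw [e1] at hs1
      have e2 : a s ⬝ᵥ c = -δ * (M⁻¹ k ⬝ᵥ c) := by rw [has, smul_dotProduct, smul_eq_mul]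
      linarith
    obtain ⟨j, hj⟩ : ∃ j, M⁻¹ k j ≠ 0 := by
      by_contra hcon
      push Not at hcon
      have : M⁻¹ k = 0 := funext hcon
      rw [har, this, smul_zero, Matrix.zero_vecMul] at hγ
      simp at hγ
      linarith
    set μ := M⁻¹ k j with hμ
    have hrj : ∀ l, a r l = γ * M⁻¹ k l := fun l => by rw [har]; rfl
    have hsj : ∀ l, a s l = -δ * M⁻¹ k l := fun l => by rw [has]; rfl
    rcases lt_or_gt_of_ne hj with hneg | hpos
    · refine ⟨s, r, j, ?_, ?_, ?_, Or.inr ?_⟩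
      · rw [hsj]; nlinarith
      · rw [hrj]; nlinarith
      · intro l; rw [hsj, hsj, hrj, hrj]; ring
      · funext l
        rw [hrj, hsj, hsj, hbr, hbs, Pi.neg_apply]
        have e : -(γ * M⁻¹ k j) * (-δ * M⁻¹ k ⬝ᵥ c) + -δ * M⁻¹ k j * (γ * M⁻¹ k ⬝ᵥ c + γ) =
          - (γ * δ * μ) := by rw [← hμ]; ring
        rw [e]
        have h0 : γ * δ * μ ≠ 0 := mul_ne_zero (mul_pos hγpos hδpos).ne' hj
        rw [div_neg, neg_inj, div_eq_iff h0, ← hμ]
        ring
    · refine ⟨r, s, j, ?_, ?_, ?_, Or.inl ?_⟩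
      · rw [hrj]; exact mul_pos hγpos hpos
      · rw [hsj]
        have := mul_pos hδpos hpos
        linarith
      · intro l; rw [hsj, hsj, hrj, hrj]; ring
      · funext l
        rw [hrj, hsj, hrj, hbr, hbs]
        have e : -(-δ * M⁻¹ k j) * (γ * M⁻¹ k ⬝ᵥ c + γ) + γ * M⁻¹ k j * (-δ * M⁻¹ k ⬝ᵥ c) =
          γ * δ * μ := by rw [← hμ]; ring
        rw [e]
        have h0 : γ * δ * μ ≠ 0 := mul_ne_zero (mul_pos hγpos hδpos).ne' hj
        rw [div_eq_iff h0, ← hμ]
        ring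

end facets

end Pool.Agent.H13.LSP
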