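import Pool.Agent.H23.K9.Ev
import Pool.Agent.H23.K9.Chain

/-!
# JOB T for MP_720da9_gt: the table of affine forms represents every parity system
-/

namespace Pool.Agent.H33.K9T
open Pool.Agent.H23.K9

abbrev X6 := Fin 9 → Fin 9 → Fin 9 → Fin 9 → Fin 9 → Fin 9 → Bool

/-! ## Permutations of the labels -/

def sg (l : List ℕ) (n : ℕ) : ℕ := l.getD n 0

def Good (l : List ℕ) : Prop := (∀ a < 9, sg l a < 9) ∧ ∀ a < 9, ∀ b < 9, sg l a = sg l b → a = b

instance (l : List ℕ) : Decidable (Good l) := by unfold Good; infer_instance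

theorem comp_inj {v : ℕ → Fin 9} (hv : Inj9 v) (l : List ℕ) (hl : Good l) :
    Inj9 (fun n => v (sg l n)) := by
  intro a ha b hb h
  exact hl.2 a ha b hb (hv _ (hl.1 a ha) _ (hl.1 b hb) h)

def P (a b c : Fin 9) (t : Fin 9 × Fin 9 × Fin 9) : Prop :=
  t = (a,b,c) ∨ t = (b,c,a) ∨ t = (c,a,b) ∨ t = (b,a,c) ∨ t = (a,c,b) ∨ t = (c,b,a)

instance (a b c : Fin 9) (t : Fin 9 × Fin 9 × Fin 9) : Decidable (P a b c t) := by
  unfold P; infer_instance

theorem P1 {x : X6} (hx : ParSys x) {v : ℕ → Fin 9} (hv : Inj9 v) {t : Fin 9 × Fin 9 × Fin 9}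
    (ht : P (v 0) (v 1) (v 2) t) :
    x t.1 t.2.1 t.2.2 (v 3) (v 4) (v 5) = x (v 0) (v 1) (v 2) (v 3) (v 4) (v 5) := by
  have hr := hx.rot v hv
  have hs := hx.swap v hv
  rcases ht with rfl | rfl | rfl | rfl | rfl | rfl
  · rfl
  · exact hr
  · exact (hx.rot _ (comp_inj hv [1,2,0,3,4,5,6,7,8] (by decide))).trans hr
  · exact hs
  · exact (hx.rot _ (comp_inj hv [1,0,2,3,4,5,6,7,8] (by decide))).trans hs
  · exact (hx.rot _ (comp_inj hv [0,2,1,3,4,5,6,7,8] (by decide))).trans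
      ((hx.rot _ (comp_inj hv [1,0,2,3,4,5,6,7,8] (by decide))).trans hs)

theorem P2 {x : X6} (hx : ParSys x) {v : ℕ → Fin 9} (hv : Inj9 v) {t : Fin 9 × Fin 9 × Fin 9}
    (ht : P (v 3) (v 4) (v 5) t) :
    x (v 0) (v 1) (v 2) t.1 t.2.1 t.2.2 = x (v 0) (v 1) (v 2) (v 3) (v 4) (v 5) := by
  have h1 : x t.1 t.2.1 t.2.2 (v 0) (v 1) (v 2) = x (v 3) (v 4) (v 5) (v 0) (v 1) (v 2) :=
    P1 hx (comp_inj hv [3,4,5,0,1,2,6,7,8] (by decide)) ht
  have h2 : x t.1 t.2.1 t.2.2 (v 0) (v 1) (v 2) = x (v 0) (v 1) (v 2) t.1 t.2.1 t.2.2 := by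
    rcases ht with rfl | rfl | rfl | rfl | rfl | rfl
    · exact hx.symm v hv
    · exact hx.symm _ (comp_inj hv [0,1,2,4,5,3,6,7,8] (by decide))
    · exact hx.symm _ (comp_inj hv [0,1,2,5,3,4,6,7,8] (by decide))
    · exact hx.symm _ (comp_inj hv [0,1,2,4,3,5,6,7,8] (by decide))
    · exact hx.symm _ (comp_inj hv [0,1,2,3,5,4,6,7,8] (by decide))
    · exact hx.symm _ (comp_inj hv [0,1,2,5,4,3,6,7,8] (by decide))
  rw [← h2, h1]
  exact hx.symm v hv

theorem P12 {x : X6} (hx : ParSys x) {v : ℕ → Fin 9} (hv : Inj9 v) {s t : Fin 9 × Fin 9 × Fin 9}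
    (hs : P (v 0) (v 1) (v 2) s) (ht : P (v 3) (v 4) (v 5) t) :
    x s.1 s.2.1 s.2.2 t.1 t.2.1 t.2.2 = x (v 0) (v 1) (v 2) (v 3) (v 4) (v 5) := by
  have h1 := P1 hx hv hs
  rw [← h1]
  rcases hs with rfl | rfl | rfl | rfl | rfl | rfl
  · exact P2 hx hv ht
  · exact P2 hx (comp_inj hv [1,2,0,3,4,5,6,7,8] (by decide)) ht
  · exact P2 hx (comp_inj hv [2,0,1,3,4,5,6,7,8] (by decide)) ht
  · exact P2 hx (comp_inj hv [1,0,2,3,4,5,6,7,8] (by decide)) ht
  · exact P2 hx (comp_inj hv [0,2,1,3,4,5,6,7,8] (by decide)) ht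
  · exact P2 hx (comp_inj hv [2,1,0,3,4,5,6,7,8] (by decide)) ht

/-! ## Decoding of keys -/

/-- all sorted triples -/
def trip : List (Fin 9 × Fin 9 × Fin 9) :=
  (List.finRange 9).flatMap fun a => (List.finRange 9).flatMap fun b =>
    (List.finRange 9).flatMap fun c => if a < b ∧ b < c then [(a, b, c)] else []

def dec (k : ℕ) : Fin 9 × Fin 9 × Fin 9 :=
  (trip.find? fun t => Wt t.1 + Wt t.2.1 + Wt t.2.2 == k).getD (0, 0, 0)

theorem dec_P : ∀ a b c : Fin 9, a ≠ b → a ≠ c → b ≠ c → P a b c (dec (Wt a + Wt b + Wt c)) := by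
  decide +kernel

def X (x : X6) (k k2 : ℕ) : Bool :=
  x (dec k).1 (dec k).2.1 (dec k).2.2 (dec k2).1 (dec k2).2.1 (dec k2).2.2

/-- the value of the table of `x` at the pair of triangles `v l0 v l1 v l2`, `v l3 v l4 v l5` -/
theorem X_eq {x : X6} (hx : ParSys x) {v : ℕ → Fin 9} (hv : Inj9 v) :
    X x (Wt (v 0) + Wt (v 1) + Wt (v 2)) (Wt (v 3) + Wt (v 4) + Wt (v 5)) =
      x (v 0) (v 1) (v 2) (v 3) (v 4) (v 5) := by
  have hne : ∀ a < 9, ∀ b < 9, a ≠ b → v a ≠ v b := fun a ha b hb h h' => h (hv a ha b hb h')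
  exact P12 hx hv
    (dec_P _ _ _ (hne 0 (by norm_num) 1 (by norm_num) (by norm_num))
      (hne 0 (by norm_num) 2 (by norm_num) (by norm_num))
      (hne 1 (by norm_num) 2 (by norm_num) (by norm_num)))
    (dec_P _ _ _ (hne 3 (by norm_num) 4 (by norm_num) (by norm_num))
      (hne 3 (by norm_num) 5 (by norm_num) (by norm_num))
      (hne 4 (by norm_num) 5 (by norm_num) (by norm_num)))

theorem X_eq' {x : X6} (hx : ParSys x) {v : ℕ → Fin 9} (hv : Inj9 v) (l : List ℕ) (hl : Good l) :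
    X x (Wt (v (sg l 0)) + Wt (v (sg l 1)) + Wt (v (sg l 2)))
      (Wt (v (sg l 3)) + Wt (v (sg l 4)) + Wt (v (sg l 5))) =
      x (v (sg l 0)) (v (sg l 1)) (v (sg l 2)) (v (sg l 3)) (v (sg l 4)) (v (sg l 5)) :=
  X_eq hx (comp_inj hv l hl)

theorem X_symm {x : X6} (hx : ParSys x) {v : ℕ → Fin 9} (hv : Inj9 v) :
    X x (Wt (v 3) + Wt (v 4) + Wt (v 5)) (Wt (v 0) + Wt (v 1) + Wt (v 2)) =
    X x (Wt (v 0) + Wt (v 1) + Wt (v 2)) (Wt (v 3) + Wt (v 4) + Wt (v 5)) := by
  rw [X_eq hx hv, ← hx.symm v hv]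
  exact X_eq' hx hv [3,4,5,0,1,2,6,7,8] (by decide)

/-! ## The checker -/

/-- basis pairs -/
def BAS : Nat := 0x81b08260839085c082d08400863084b086e0881091a09250938095b092c093f0962094a096d09800a190a240a370a5a0a2c0a3f0a620a4a0a6d0a80111211241137115a11251138115b114a116d11801c121c191c371c5a1c1a1c381c5b1c3f1c621c802f122f192f242f5a2f1a2f252f5b2f2c2f622f6d5212521952245237521a52255238522c523f524a0b180b230b360b590b2a0b3d0b600b480b6b0b7e0c170c220c350c580c2a0c3d0c600c480c6b0c7e13101322133513581323133613591348136b137e1e101e171e351e581e181e361e591e3d1e601e7e3110311731223158311831233159312a3160316b5410541754225435541854235436542a543d54480d160d210d340d570d2a0d3d0d600d480d6b0d7e140f1421143414571423143614591448146b147e1f0f1f341f571f181f361f591f3d1f601f7e320f3257321832233259322a3260326b550f551855235536552a553d55481548156b157e203d2060207e332a3360336b562a563d5648277e3a6b5d48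

/-- the pair of keys number `i` of the basis -/
noncomputable def kk (i : Nat) : Nat :=
  Nat.mod (Nat.shiftRight BAS (Nat.mul (nat_lit 16) i)) (nat_lit 65536)

noncomputable def ix (k k2 : Nat) : Nat := Nat.add (Nat.mul k (nat_lit 256)) k2

noncomputable def vb (M k k2 : Nat) : Bool :=
  Nat.beq (Nat.mod (Nat.shiftRight M (ix k k2)) (nat_lit 2)) (nat_lit 1)

noncomputable def addb (M k k2 : Nat) : Nat := Nat.lor M (Nat.shiftLeft (nat_lit 1) (ix k k2))

noncomputable def sl (k k2 : Nat) : Nat := slot (rowOf k) k2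

/-- conjunction of Booleans, evaluated from left to right -/
noncomputable def an (a b : Bool) : Bool := Bool.rec false b a

/-- check of a basis command -/
noncomputable def ok0 (ws i : Nat) : Bool :=
  an (Nat.beq (sl (key ws (0,1,2)) (key ws (3,4,5))) (Nat.pow (nat_lit 2) i))
    (an (Nat.ble i (nat_lit 190)) (Nat.beq (kk i) (ix (key ws (0,1,2)) (key ws (3,4,5)))))

/-- check of a relation `r1` -/
noncomputable def ok1 (M ws : Nat) : Bool :=
  an (vb M (key ws (0,1,2)) (key ws (3,4,6))) (an (vb M (key ws (0,1,2)) (key ws (3,5,6)))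
    (an (vb M (key ws (0,1,2)) (key ws (4,5,6)))
      (Nat.beq (sl (key ws (0,1,2)) (key ws (3,4,5)))
        (Nat.xor (sl (key ws (0,1,2)) (key ws (3,4,6)))
          (Nat.xor (sl (key ws (0,1,2)) (key ws (3,5,6))) (sl (key ws (0,1,2)) (key ws (4,5,6))))))))

/-- check of a relation `r2` -/
noncomputable def ok2 (M ws : Nat) : Bool :=
  an (vb M (key ws (0,1,3)) (key ws (2,4,5))) (an (vb M (key ws (0,1,4)) (key ws (2,3,5)))
    (an (vb M (key ws (0,1,5)) (key ws (2,3,4))) (an (vb M (key ws (0,2,3)) (key ws (1,4,5)))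
    (an (vb M (key ws (0,2,4)) (key ws (1,3,5))) (an (vb M (key ws (0,2,5)) (key ws (1,3,4)))
    (an (vb M (key ws (0,3,4)) (key ws (1,2,5))) (an (vb M (key ws (0,3,5)) (key ws (1,2,4)))
    (an (vb M (key ws (0,4,5)) (key ws (1,2,3)))
    (Nat.beq (sl (key ws (0,1,2)) (key ws (3,4,5)))
      (Nat.xor (sl (key ws (0,1,3)) (key ws (2,4,5)))
      (Nat.xor (sl (key ws (0,1,4)) (key ws (2,3,5)))
      (Nat.xor (sl (key ws (0,1,5)) (key ws (2,3,4)))
      (Nat.xor (sl (key ws (0,2,3)) (key ws (1,4,5)))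
      (Nat.xor (sl (key ws (0,2,4)) (key ws (1,3,5)))
      (Nat.xor (sl (key ws (0,2,5)) (key ws (1,3,4)))
      (Nat.xor (sl (key ws (0,3,4)) (key ws (1,2,5)))
      (Nat.xor (sl (key ws (0,3,5)) (key ws (1,2,4)))
      (Nat.xor (sl (key ws (0,4,5)) (key ws (1,2,3))) ONE))))))))))))))))))

/-- check of a command -/
noncomputable def okc (M c ws : Nat) : Bool :=
  an (okPerm ws) (an (Nat.beq (sl (key ws (3,4,5)) (key ws (0,1,2))) (sl (key ws (0,1,2)) (key ws (3,4,5))))
    (Bool.rec (Bool.rec (ok2 M ws) (ok1 M ws) (Nat.beq (Nat.mod c (nat_lit 4)) (nat_lit 1)))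
      (ok0 ws (Nat.mod (Nat.shiftRight c (nat_lit 2)) (nat_lit 256)))
      (Nat.beq (Nat.mod c (nat_lit 4)) (nat_lit 0))))

/-- new bitmask -/
noncomputable def newM (M ws : Nat) : Nat :=
  addb (addb M (key ws (0,1,2)) (key ws (3,4,5))) (key ws (3,4,5)) (key ws (0,1,2))

/-- bitmask of the labels of a triple -/
def msk (a b c : Fin 9) : ℕ := 2 ^ a.val ||| 2 ^ b.val ||| 2 ^ c.val

/-- all (key, mask) of the triples -/
def trk : List (Nat × Nat) := trip.map fun t => (Wt t.1 + Wt t.2.1 + Wt t.2.2, msk t.1 t.2.1 t.2.2)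

/-- all disjoint pairs verified? -/
def fin (M : Nat) : Bool := trk.all fun s => trk.all fun t =>
  if s.2 &&& t.2 = 0 then (M >>> (s.1 * 256 + t.1)) % 2 == 1 else true

noncomputable def run (l : List Nat) (M : Nat) : Bool :=
  List.rec (motive := fun _ => Nat → Bool) (fun M => fin M)
    (fun c _ ih M => an (okc M c (Nat.shiftRight c (nat_lit 16)))
      (ih (newM M (Nat.shiftRight c (nat_lit 16))))) l M

set_option maxRecDepth 100000 in
theorem run_chain : run chain 0 = true := by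
  decide +kernel

/-! ## Soundness -/

theorem an_eq (a b : Bool) : an a b = (a && b) := by cases a <;> rfl

theorem vb_eq (M k k2 : ℕ) : vb M k k2 = M.testBit (k * 256 + k2) := by
  have h : vb M k k2 = Nat.beq ((M >>> (k * 256 + k2)) % 2) 1 := rfl
  rw [h, Nat.testBit_eq_decide_div_mod_eq, Nat.shiftRight_eq_div_pow]
  by_cases h' : M / 2 ^ (k * 256 + k2) % 2 = 1
  · rw [h']; rfl
  · simp only [h', decide_false]
    cases hb : Nat.beq (M / 2 ^ (k * 256 + k2) % 2) 1 with
    | false => rfl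
    | true => exact absurd (Nat.eq_of_beq_eq_true hb) h'

theorem addb_testBit (M k k2 j : ℕ) :
    (addb M k k2).testBit j = (M.testBit j || decide (k * 256 + k2 = j)) := by
  have h : addb M k k2 = M ||| 1 <<< (k * 256 + k2) := rfl
  rw [h, Nat.testBit_or, testBit_one_shl]

/-- the invariant: the verified entries are correct -/
def Inv (x : X6) (y : ℕ → Bool) (M : ℕ) : Prop :=
  ∀ k k2, k2 < 256 → M.testBit (k * 256 + k2) = true → ev y (sl k k2) = X x k k2

theorem Inv_addb {x : X6} {y : ℕ → Bool} {M k k2 : ℕ} (h : Inv x y M) (hk2 : k2 < 256)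
    (he : ev y (sl k k2) = X x k k2) : Inv x y (addb M k k2) := by
  intro a b hb hab
  rw [addb_testBit] at hab
  rcases Bool.or_eq_true_iff.mp hab with h1 | h1
  · exact h a b hb h1
  · have h2 := of_decide_eq_true h1
    have h3 : k = a := by omega
    have h4 : k2 = b := by omega
    subst h3 h4
    exact he

/-- the assignment defined by `x` -/
noncomputable def yy (x : X6) (i : ℕ) : Bool := if i = 191 then true else X x (kk i / 256) (kk i % 256)

theorem Wt_le : ∀ j : Fin 9, Wt j ≤ 79 := by decide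

theorem hE0 {x : X6} {k k2 i : ℕ} (hk2 : k2 < 256)
    (h1 : Nat.beq (sl k k2) (Nat.pow 2 i) = true) (h2 : Nat.ble i 190 = true)
    (h3 : Nat.beq (kk i) (ix k k2) = true) : ev (yy x) (sl k k2) = X x k k2 := by
  have e1 : sl k k2 = 2 ^ i := Nat.eq_of_beq_eq_true h1
  have e2 : i ≤ 190 := Nat.le_of_ble_eq_true h2
  have e3 : kk i = k * 256 + k2 := Nat.eq_of_beq_eq_true h3
  rw [e1, ev_two_pow _ _ (by omega)]
  have : i ≠ 191 := by omega
  simp only [yy, this, if_false, e3]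
  have e4 : (k * 256 + k2) / 256 = k := by omega
  have e5 : (k * 256 + k2) % 256 = k2 := by omega
  rw [e4, e5]

theorem okc_sound {x : X6} (hx : ParSys x) {M c ws : ℕ} (hM : Inv x (yy x) M)
    (h : okc M c ws = true) : Inv x (yy x) (newM M ws) := by
  simp only [okc, an_eq, Bool.and_eq_true] at h
  obtain ⟨hp, hs, ht⟩ := h
  obtain ⟨v, hv, hb⟩ := okPerm_spec ws hp
  have hkey : ∀ i j l : ℕ, i < 9 → j < 9 → l < 9 →
      key ws (i, j, l) = Wt (v i) + Wt (v j) + Wt (v l) := by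
    intro i j l hi hj hl
    have : key ws (i, j, l) = byte ws i + byte ws j + byte ws l := rfl
    rw [this, hb i hi, hb j hj, hb l hl]
  have hlt : ∀ i j l : ℕ, Wt (v i) + Wt (v j) + Wt (v l) < 256 := by
    intro i j l
    have := Wt_le (v i)
    have := Wt_le (v j)
    have := Wt_le (v l)
    omega
  have hs' := Nat.eq_of_beq_eq_true hs
  have hx1 : ev (yy x) ONE = true := ev_ONE _ (by simp [yy])
  have hM' : ∀ k k2, k2 < 256 → vb M k k2 = true → ev (yy x) (sl k k2) = X x k k2 := by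
    intro k k2 hk2 h
    rw [vb_eq] at h
    exact hM k k2 hk2 h
  have hE : ev (yy x) (sl (key ws (0,1,2)) (key ws (3,4,5))) =
      X x (key ws (0,1,2)) (key ws (3,4,5)) := by
    cases h0 : Nat.beq (Nat.mod c (nat_lit 4)) (nat_lit 0) with
    | true =>
      rw [h0] at ht
      have ht' : ok0 ws (Nat.mod (Nat.shiftRight c (nat_lit 2)) (nat_lit 256)) = true := ht
      simp only [ok0, an_eq, Bool.and_eq_true] at ht'
      exact hE0 (by rw [hkey 3 4 5 (by norm_num) (by norm_num) (by norm_num)]; exact hlt _ _ _)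
        ht'.1 ht'.2.1 ht'.2.2
    | false =>
      rw [h0] at ht
      cases h1 : Nat.beq (Nat.mod c (nat_lit 4)) (nat_lit 1) with
      | true =>
        rw [h1] at ht
        have ht' : ok1 M ws = true := ht
        simp only [ok1, an_eq, Bool.and_eq_true] at ht'
        obtain ⟨b1, b2, b3, b4⟩ := ht'
        have e4 : sl (key ws (0,1,2)) (key ws (3,4,5)) =
          sl (key ws (0,1,2)) (key ws (3,4,6)) ^^^
          (sl (key ws (0,1,2)) (key ws (3,5,6)) ^^^ sl (key ws (0,1,2)) (key ws (4,5,6))) :=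
          Nat.eq_of_beq_eq_true b4
        have hk := fun i j l hi hj hl => hkey i j l hi hj hl
        rw [e4, ev_xor, ev_xor]
        simp only [hkey, Nat.reduceLT] at b1 b2 b3 ⊢
        rw [hM' _ _ (hlt _ _ _) b1, hM' _ _ (hlt _ _ _) b2, hM' _ _ (hlt _ _ _) b3]
        have r := hx.r1 v hv
        have a0 := X_eq hx hv
        have a1 := X_eq' hx hv [0,1,2,3,4,6,5,7,8] (by decide)
        have a2 := X_eq' hx hv [0,1,2,3,5,6,4,7,8] (by decide)
        have a3 := X_eq' hx hv [0,1,2,4,5,6,3,7,8] (by decide)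
        simp only [sg, List.getD_cons_zero, List.getD_cons_succ] at a1 a2 a3
        rw [a0, a1, a2, a3]
        revert r
        generalize x (v 0) (v 1) (v 2) (v 3) (v 4) (v 5) = z0
        generalize x (v 0) (v 1) (v 2) (v 3) (v 4) (v 6) = z1
        generalize x (v 0) (v 1) (v 2) (v 3) (v 5) (v 6) = z2
        generalize x (v 0) (v 1) (v 2) (v 4) (v 5) (v 6) = z3
        revert z0 z1 z2 z3
        decide
      | false =>
        rw [h1] at ht
        have ht' : ok2 M ws = true := ht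
        simp only [ok2, an_eq, Bool.and_eq_true] at ht'
        obtain ⟨b1, b2, b3, b4, b5, b6, b7, b8, b9, b10⟩ := ht'
        have e4 : sl (key ws (0,1,2)) (key ws (3,4,5)) =
          sl (key ws (0,1,3)) (key ws (2,4,5)) ^^^
          (sl (key ws (0,1,4)) (key ws (2,3,5)) ^^^
          (sl (key ws (0,1,5)) (key ws (2,3,4)) ^^^
          (sl (key ws (0,2,3)) (key ws (1,4,5)) ^^^
          (sl (key ws (0,2,4)) (key ws (1,3,5)) ^^^
          (sl (key ws (0,2,5)) (key ws (1,3,4)) ^^^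
          (sl (key ws (0,3,4)) (key ws (1,2,5)) ^^^
          (sl (key ws (0,3,5)) (key ws (1,2,4)) ^^^
          (sl (key ws (0,4,5)) (key ws (1,2,3)) ^^^ ONE)))))))) :=
          Nat.eq_of_beq_eq_true b10
        rw [e4]
        simp only [ev_xor, hx1]
        simp only [hkey, Nat.reduceLT] at b1 b2 b3 b4 b5 b6 b7 b8 b9 ⊢
        rw [hM' _ _ (hlt _ _ _) b1, hM' _ _ (hlt _ _ _) b2, hM' _ _ (hlt _ _ _) b3,
          hM' _ _ (hlt _ _ _) b4, hM' _ _ (hlt _ _ _) b5, hM' _ _ (hlt _ _ _) b6,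
          hM' _ _ (hlt _ _ _) b7, hM' _ _ (hlt _ _ _) b8, hM' _ _ (hlt _ _ _) b9]
        have r := hx.r2 v hv
        have a0 := X_eq hx hv
        have a1 := X_eq' hx hv [0,1,3,2,4,5,6,7,8] (by decide)
        have a2 := X_eq' hx hv [0,1,4,2,3,5,6,7,8] (by decide)
        have a3 := X_eq' hx hv [0,1,5,2,3,4,6,7,8] (by decide)
        have a4 := X_eq' hx hv [0,2,3,1,4,5,6,7,8] (by decide)
        have a5 := X_eq' hx hv [0,2,4,1,3,5,6,7,8] (by decide)
        have a6 := X_eq' hx hv [0,2,5,1,3,4,6,7,8] (by decide)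
        have a7 := X_eq' hx hv [0,3,4,1,2,5,6,7,8] (by decide)
        have a8 := X_eq' hx hv [0,3,5,1,2,4,6,7,8] (by decide)
        have a9 := X_eq' hx hv [0,4,5,1,2,3,6,7,8] (by decide)
        simp only [sg, List.getD_cons_zero, List.getD_cons_succ] at a1 a2 a3 a4 a5 a6 a7 a8 a9
        rw [a0, a1, a2, a3, a4, a5, a6, a7, a8, a9]
        revert r
        generalize x (v 0) (v 1) (v 2) (v 3) (v 4) (v 5) = z0
        generalize x (v 0) (v 1) (v 3) (v 2) (v 4) (v 5) = z1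
        generalize x (v 0) (v 1) (v 4) (v 2) (v 3) (v 5) = z2
        generalize x (v 0) (v 1) (v 5) (v 2) (v 3) (v 4) = z3
        generalize x (v 0) (v 2) (v 3) (v 1) (v 4) (v 5) = z4
        generalize x (v 0) (v 2) (v 4) (v 1) (v 3) (v 5) = z5
        generalize x (v 0) (v 2) (v 5) (v 1) (v 3) (v 4) = z6
        generalize x (v 0) (v 3) (v 4) (v 1) (v 2) (v 5) = z7
        generalize x (v 0) (v 3) (v 5) (v 1) (v 2) (v 4) = z8
        generalize x (v 0) (v 4) (v 5) (v 1) (v 2) (v 3) = z9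
        clear a0 a1 a2 a3 a4 a5 a6 a7 a8 a9
        revert z0 z1 z2 z3 z4 z5 z6 z7 z8 z9
        decide +kernel
  have hk : key ws (0,1,2) = Wt (v 0) + Wt (v 1) + Wt (v 2) :=
    hkey 0 1 2 (by norm_num) (by norm_num) (by norm_num)
  have hk2 : key ws (3,4,5) = Wt (v 3) + Wt (v 4) + Wt (v 5) :=
    hkey 3 4 5 (by norm_num) (by norm_num) (by norm_num)
  unfold newM
  refine Inv_addb (Inv_addb hM ?_ hE) ?_ ?_
  · rw [hk2]; exact hlt _ _ _
  · rw [hk]; exact hlt _ _ _
  · rw [hs', hE, hk, hk2, X_symm hx hv]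

theorem run_sound {x : X6} (hx : ParSys x) (l : List ℕ) : ∀ M, Inv x (yy x) M →
    run l M = true → ∃ M', Inv x (yy x) M' ∧ fin M' = true := by
  induction l with
  | nil => intro M hM h; exact ⟨M, hM, h⟩
  | cons c l ih =>
    intro M hM h
    have h' : an (okc M c (c >>> 16)) (run l (newM M (c >>> 16))) = true := h
    rw [an_eq, Bool.and_eq_true] at h'
    exact ih _ (okc_sound hx hM h'.1) h'.2

theorem trk_mem : ∀ a b c : Fin 9, a ≠ b → a ≠ c → b ≠ c →
    (Wt a + Wt b + Wt c, msk a b c) ∈ trk := by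
  decide +kernel

theorem msk_disj (a b c d e f : Fin 9) (h : ∀ s ∈ [a, b, c], ∀ t ∈ [d, e, f], s ≠ t) :
    msk a b c &&& msk d e f = 0 := by
  apply Nat.eq_of_testBit_eq
  intro k
  simp only [msk, Nat.testBit_and, Nat.testBit_or, Nat.testBit_two_pow, Nat.zero_testBit]
  have h1 : ∀ s ∈ [a, b, c], ∀ t ∈ [d, e, f], ¬ (s.val = k ∧ t.val = k) := by
    intro s hs t ht ⟨h1, h2⟩
    exact h s hs t ht (Fin.ext (h1.trans h2.symm))
  simp only [List.mem_cons, List.not_mem_nil, or_false, forall_eq_or_imp, forall_eq] at h1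
  obtain ⟨⟨q1, q2, q3⟩, ⟨q4, q5, q6⟩, q7, q8, q9⟩ := h1
  by_cases ha : a.val = k <;> by_cases hb : b.val = k <;> by_cases hc : c.val = k <;>
    by_cases hd : d.val = k <;> by_cases he : e.val = k <;> by_cases hf : f.val = k <;>
    simp_all

theorem jobT : JobT := by
  intro x hx
  refine ⟨yy x, by simp [yy], ?_⟩
  obtain ⟨M, hM, hfin⟩ := run_sound hx chain 0 (by intro k k2 _ h; simp at h) run_chain
  intro v hv
  have hne : ∀ a < 9, ∀ b < 9, a ≠ b → v a ≠ v b := fun a ha b hb h h' => h (hv a ha b hb h')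
  have h1 := trk_mem (v 0) (v 1) (v 2) (hne 0 (by norm_num) 1 (by norm_num) (by norm_num))
      (hne 0 (by norm_num) 2 (by norm_num) (by norm_num))
      (hne 1 (by norm_num) 2 (by norm_num) (by norm_num))
  have h2 := trk_mem (v 3) (v 4) (v 5) (hne 3 (by norm_num) 4 (by norm_num) (by norm_num))
      (hne 3 (by norm_num) 5 (by norm_num) (by norm_num))
      (hne 4 (by norm_num) 5 (by norm_num) (by norm_num))
  have h3 : msk (v 0) (v 1) (v 2) &&& msk (v 3) (v 4) (v 5) = 0 := by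
    apply msk_disj
    simp only [List.mem_cons, List.not_mem_nil, or_false, forall_eq_or_imp, forall_eq]
    refine ⟨⟨?_, ?_, ?_⟩, ⟨?_, ?_, ?_⟩, ?_, ?_, ?_⟩ <;>
      exact hne _ (by norm_num) _ (by norm_num) (by norm_num)
  rw [fin, List.all_eq_true] at hfin
  have h4 := hfin _ h1
  rw [List.all_eq_true] at h4
  have h5 := h4 _ h2
  simp only [h3, if_true, beq_iff_eq] at h5
  have h6 : M.testBit ((Wt (v 0) + Wt (v 1) + Wt (v 2)) * 256 + (Wt (v 3) + Wt (v 4) + Wt (v 5)))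
      = true := by
    rw [Nat.testBit_eq_decide_div_mod_eq, ← Nat.shiftRight_eq_div_pow, h5]; rfl
  have h7 := hM _ _ (by
    have := Wt_le (v 3)
    have := Wt_le (v 4)
    have := Wt_le (v 5)
    omega) h6
  rw [X_eq hx hv] at h7
  exact h7

end Pool.Agent.H33.K9T
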