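import Pool.Agent.H23.K9.Sem

/-!
# JOB S for MP_720da9_gt: the parities of linking numbers form a `ParSys`
-/

namespace Pool.Agent.H33.K9S
open Pool.Agent.H23.K9

/-! ## Cycles from lists -/

theorem getD_inj {l : List ℕ} (hl : l.Nodup) {i j : ℕ} (hi : i < l.length) (hj : j < l.length)
    (h : l.getD i 0 = l.getD j 0) : i = j := by
  rw [List.getD_eq_getElem _ _ hi, List.getD_eq_getElem _ _ hj] at h
  exact (List.Nodup.getElem_inj_iff hl).mp h

theorem getD_mem {l : List ℕ} {i : ℕ} (hi : i < l.length) : l.getD i 0 ∈ l := by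
  rw [List.getD_eq_getElem _ _ hi]
  exact List.getElem_mem hi

/-- the cycle given by a list of labels -/
def cyc {v : ℕ → Fin 9} (hv : Inj9 v) (l : List ℕ) (hl : l.Nodup) (h3 : 3 ≤ l.length)
    (h9 : ∀ a ∈ l, a < 9) : GCycle (⊤ : SimpleGraph (Fin 9)) where
  len := l.length
  three_le := h3
  vert i := v (l.getD i.val 0)
  inj := by
    have : NeZero l.length := ⟨by omega⟩
    intro i j hij
    have hi := ZMod.val_lt i
    have hj := ZMod.val_lt j
    exact ZMod.val_injective _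
      (getD_inj hl hi hj (hv _ (h9 _ (getD_mem hi)) _ (h9 _ (getD_mem hj)) hij))
  adj := by
    have : NeZero l.length := ⟨by omega⟩
    have : Fact (1 < l.length) := ⟨by omega⟩
    intro i
    rw [SimpleGraph.top_adj]
    intro hij
    have hi := ZMod.val_lt i
    have hj := ZMod.val_lt (i + 1)
    have := ZMod.val_injective _
      (getD_inj hl hi hj (hv _ (h9 _ (getD_mem hi)) _ (h9 _ (getD_mem hj)) hij))
    have h1 : (1 : ZMod l.length) = 0 := by
      have h2 : i + 0 = i + 1 := by rw [add_zero]; exact this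
      exact (add_left_cancel h2).symm
    exact one_ne_zero h1

/-- sum over all pairs of edges of two cycles given by lists -/
def listSum (m : Fin 9 → Fin 9 → Fin 9 → Fin 9 → ℤ) (v : ℕ → Fin 9) (l l' : List ℕ) : ℤ :=
  ∑ i ∈ Finset.range l.length, ∑ j ∈ Finset.range l'.length,
    m (v (l.getD i 0)) (v (l.getD ((i + 1) % l.length) 0))
      (v (l'.getD j 0)) (v (l'.getD ((j + 1) % l'.length) 0))

theorem cyc_vert {v : ℕ → Fin 9} (hv : Inj9 v) (l : List ℕ) (hl : l.Nodup) (h3 : 3 ≤ l.length)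
    (h9 : ∀ a ∈ l, a < 9) (i : ℕ) (hi : i < l.length) :
    (cyc hv l hl h3 h9).vert (i : ZMod l.length) = v (l.getD i 0) := by
  show v (l.getD (i : ZMod l.length).val 0) = _
  rw [ZMod.val_natCast, Nat.mod_eq_of_lt hi]

theorem cyc_vert' {v : ℕ → Fin 9} (hv : Inj9 v) (l : List ℕ) (hl : l.Nodup) (h3 : 3 ≤ l.length)
    (h9 : ∀ a ∈ l, a < 9) (i : ℕ) :
    (cyc hv l hl h3 h9).vert (((i : ZMod l.length) + 1 : ZMod l.length)) =
      v (l.getD ((i + 1) % l.length) 0) := by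
  show v (l.getD ((i : ZMod l.length) + 1).val 0) = _
  have : ((i : ZMod l.length) + 1) = ((i + 1 : ℕ) : ZMod l.length) := by push_cast; rfl
  rw [this, ZMod.val_natCast]

theorem cyc_le {m : Fin 9 → Fin 9 → Fin 9 → Fin 9 → ℤ}
    (H : ∀ C D : GCycle (⊤ : SimpleGraph (Fin 9)), (∀ i j, C.vert i ≠ D.vert j) →
      ∀ n : ℤ, 2 * n = cycSum m C D → |n| ≤ 1)
    {v : ℕ → Fin 9} (hv : Inj9 v) (l l' : List ℕ) (h : (l ++ l').Nodup)
    (h3 : 3 ≤ l.length) (h3' : 3 ≤ l'.length) (h9 : ∀ a ∈ l ++ l', a < 9) (n : ℤ)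
    (hn : 2 * n = listSum m v l l') : |n| ≤ 1 := by
  have hl : l.Nodup := (List.nodup_append.mp h).1
  have hl' : l'.Nodup := (List.nodup_append.mp h).2.1
  have h9l : ∀ a ∈ l, a < 9 := fun a ha => h9 a (List.mem_append_left _ ha)
  have h9l' : ∀ a ∈ l', a < 9 := fun a ha => h9 a (List.mem_append_right _ ha)
  have : NeZero l.length := ⟨by omega⟩
  have : NeZero l'.length := ⟨by omega⟩
  refine H (cyc hv l hl h3 h9l) (cyc hv l' hl' h3' h9l') ?_ n ?_
  · intro i j hij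
    have hi := @ZMod.val_lt l.length _ i
    have hj := @ZMod.val_lt l'.length _ j
    have := hv _ (h9l _ (getD_mem hi)) _ (h9l' _ (getD_mem hj)) hij
    exact (List.nodup_append.mp h).2.2 _ (getD_mem hi) _ (getD_mem hj) this
  · rw [hn]
    unfold listSum cycSum
    apply Finset.sum_congr rfl
    intro i hi
    apply Finset.sum_congr rfl
    intro j hj
    rw [Finset.mem_range] at hi hj
    have e1 := cyc_vert hv l hl h3 h9l i hi
    have e2 := cyc_vert' hv l hl h3 h9l i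
    have e3 := cyc_vert hv l' hl' h3' h9l' j hj
    have e4 := cyc_vert' hv l' hl' h3' h9l' j
    rw [← e1, ← e2, ← e3, ← e4]
    rfl

/-! ## Evenness and parity -/

theorem even' {m : Fin 9 → Fin 9 → Fin 9 → Fin 9 → ℤ} (hm : LinkingData m)
    {v : ℕ → Fin 9} (hv : Inj9 v) (a b c d e f : ℕ) (h : [a, b, c, d, e, f].Nodup)
    (h9 : ∀ x ∈ [a, b, c, d, e, f], x < 9) :
    2 ∣ triSum m (v a) (v b) (v c) (v d) (v e) (v f) := by
  refine hm.even ![v a, v b, v c, v d, v e, v f] ?_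
  have : (![v a, v b, v c, v d, v e, v f] : Fin 6 → Fin 9) =
      fun i : Fin 6 => v ([a, b, c, d, e, f].getD i.val 0) := by
    funext i; fin_cases i <;> rfl
  rw [this]
  intro i j hij
  have hi : i.val < [a, b, c, d, e, f].length := i.isLt
  have hj : j.val < [a, b, c, d, e, f].length := j.isLt
  exact Fin.ext (getD_inj h hi hj (hv _ (h9 _ (getD_mem hi)) _ (h9 _ (getD_mem hj)) hij))

theorem xor_dec (a b : ℤ) (ha : 2 ∣ a) (hb : 2 ∣ b) :
    xor (decide (a % 4 = 2)) (decide (b % 4 = 2)) = decide ((a + b) % 4 = 2) := by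
  obtain ⟨a, rfl⟩ := ha
  obtain ⟨b, rfl⟩ := hb
  by_cases h1 : 2 * a % 4 = 2 <;> by_cases h2 : 2 * b % 4 = 2 <;>
    by_cases h3 : (2 * a + 2 * b) % 4 = 2 <;> simp [h1, h2, h3] <;> omega

/-- integer version of `fanX1` -/
def fanI1 (m : Fin 9 → Fin 9 → Fin 9 → Fin 9 → ℤ) (v : ℕ → Fin 9)
    (s : ℕ × ℕ × ℕ) : List (ℕ × ℕ × ℕ) → ℤ
  | [] => 0
  | t :: Q => triSum m (v s.1) (v s.2.1) (v s.2.2) (v t.1) (v t.2.1) (v t.2.2) + fanI1 m v s Q

/-- integer version of `fanX` -/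
def fanI (m : Fin 9 → Fin 9 → Fin 9 → Fin 9 → ℤ) (v : ℕ → Fin 9)
    (Q : List (ℕ × ℕ × ℕ)) : List (ℕ × ℕ × ℕ) → ℤ
  | [] => 0
  | s :: P => fanI1 m v s Q + fanI m v Q P

def okTri (s t : ℕ × ℕ × ℕ) : Prop :=
  [s.1, s.2.1, s.2.2, t.1, t.2.1, t.2.2].Nodup ∧ ∀ x ∈ [s.1, s.2.1, s.2.2, t.1, t.2.1, t.2.2], x < 9

instance (s t : ℕ × ℕ × ℕ) : Decidable (okTri s t) := by unfold okTri; infer_instance

theorem fanX1_eq {m : Fin 9 → Fin 9 → Fin 9 → Fin 9 → ℤ} (hm : LinkingData m)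
    {v : ℕ → Fin 9} (hv : Inj9 v) (s : ℕ × ℕ × ℕ) (Q : List (ℕ × ℕ × ℕ))
    (h : ∀ t ∈ Q, okTri s t) :
    2 ∣ fanI1 m v s Q ∧ fanX1 (par m) v s Q = decide (fanI1 m v s Q % 4 = 2) := by
  induction Q with
  | nil => exact ⟨⟨0, rfl⟩, rfl⟩
  | cons t Q ih =>
    obtain ⟨h1, h2⟩ := ih (fun t ht => h t (List.mem_cons_of_mem _ ht))
    have h3 := h t List.mem_cons_self
    have h4 := even' hm hv _ _ _ _ _ _ h3.1 h3.2
    refine ⟨dvd_add h4 h1, ?_⟩
    simp only [fanX1, fanI1]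
    rw [h2, par, xor_dec _ _ h4 h1]
    rfl

theorem fanX_eq {m : Fin 9 → Fin 9 → Fin 9 → Fin 9 → ℤ} (hm : LinkingData m)
    {v : ℕ → Fin 9} (hv : Inj9 v) (P Q : List (ℕ × ℕ × ℕ))
    (h : ∀ s ∈ P, ∀ t ∈ Q, okTri s t) :
    2 ∣ fanI m v Q P ∧ fanX (par m) v Q P = decide (fanI m v Q P % 4 = 2) := by
  induction P with
  | nil => exact ⟨⟨0, rfl⟩, rfl⟩
  | cons s P ih =>
    obtain ⟨h1, h2⟩ := ih (fun s hs => h s (List.mem_cons_of_mem _ hs))
    obtain ⟨h3, h4⟩ := fanX1_eq hm hv s Q (h s List.mem_cons_self)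
    refine ⟨dvd_add h3 h1, ?_⟩
    simp only [fanX, fanI]
    rw [h2, h4, xor_dec _ _ h3 h1]
    rfl

theorem typ_ok : ∀ t < 8, ∀ i < 4, ∀ s ∈ (typ t).1, ∀ r ∈ nth [] (typ t).2 i, okTri s r := by
  decide

/-- integer version of `faceX` -/
def faceI (m : Fin 9 → Fin 9 → Fin 9 → Fin 9 → ℤ) (v : ℕ → Fin 9) (t i : ℕ) : ℤ :=
  fanI m v (nth [] (typ t).2 i) (typ t).1

theorem k4core (P : ℕ → ℤ) (a b c : ℤ) (ha : |a| ≤ 1) (hb : |b| ≤ 1) (hc : |c| ≤ 1)
    (h1 : P 0 - P 1 = 2 * a) (h2 : P 0 + P 2 = - (2 * b)) (h3 : P 0 - P 3 = 2 * c)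
    (h4 : P 0 - P 1 + P 2 - P 3 = 0) :
    ∀ i < 4, ∀ j < 4, ∀ l < 4, i ≠ j → i ≠ l → j ≠ l →
      P i % 4 = 2 → P j % 4 = 2 → ¬ P l % 4 = 2 := by
  rw [abs_le] at ha hb hc
  intro i hi j hj l hl hij hil hjl hPi hPj hPl
  interval_cases i <;> interval_cases j <;> first | omega | (interval_cases l <;> omega)

theorem face_of {m : Fin 9 → Fin 9 → Fin 9 → Fin 9 → ℤ} (hm : LinkingData m)
    (H : ∀ C D : GCycle (⊤ : SimpleGraph (Fin 9)), (∀ i j, C.vert i ≠ D.vert j) →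
      ∀ n : ℤ, 2 * n = cycSum m C D → |n| ≤ 1)
    {v : ℕ → Fin 9} (hv : Inj9 v) (t : ℕ) (ht : t < 8) (l l1 l2 l3 : List ℕ)
    (hl : 3 ≤ l.length) (hl1 : 3 ≤ l1.length) (hl2 : 3 ≤ l2.length) (hl3 : 3 ≤ l3.length)
    (n1 : (l ++ l1).Nodup) (n2 : (l ++ l2).Nodup) (n3 : (l ++ l3).Nodup)
    (b1 : ∀ a ∈ l ++ l1, a < 9) (b2 : ∀ a ∈ l ++ l2, a < 9) (b3 : ∀ a ∈ l ++ l3, a < 9)
    (h1 : faceI m v t 0 - faceI m v t 1 = listSum m v l l1)
    (h2 : faceI m v t 0 + faceI m v t 2 = - listSum m v l l2)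
    (h3 : faceI m v t 0 - faceI m v t 3 = listSum m v l l3)
    (h4 : faceI m v t 0 - faceI m v t 1 + faceI m v t 2 - faceI m v t 3 = 0) :
    ∀ i < 4, ∀ j < 4, ∀ k < 4, i ≠ j → i ≠ k → j ≠ k →
    faceX (par m) v t i = true → faceX (par m) v t j = true → faceX (par m) v t k = false := by
  have key : ∀ i < 4, 2 ∣ faceI m v t i ∧ faceX (par m) v t i = decide (faceI m v t i % 4 = 2) :=
    fun i hi => fanX_eq hm hv _ _ (typ_ok t ht i hi)
  have e0 := (key 0 (by norm_num)).1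
  have e1 := (key 1 (by norm_num)).1
  have e2 := (key 2 (by norm_num)).1
  have e3 := (key 3 (by norm_num)).1
  obtain ⟨a, ha⟩ : ∃ a, faceI m v t 0 - faceI m v t 1 = 2 * a := dvd_sub e0 e1
  obtain ⟨b, hb⟩ : ∃ b, faceI m v t 0 + faceI m v t 2 = 2 * b := dvd_add e0 e2
  obtain ⟨c, hc⟩ : ∃ c, faceI m v t 0 - faceI m v t 3 = 2 * c := dvd_sub e0 e3
  have A := cyc_le H hv l l1 n1 hl hl1 b1 a (by rw [← ha, h1])
  have B := cyc_le H hv l l2 n2 hl hl2 b2 (-b) (by linarith)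
  have C := cyc_le H hv l l3 n3 hl hl3 b3 c (by rw [← hc, h3])
  have core := k4core (faceI m v t) a (-b) c A B C ha (by linarith) hc h4
  intro i hi j hj k hk hij hik hjk hxi hxj
  rw [(key i hi).2, decide_eq_true_eq] at hxi
  rw [(key j hj).2, decide_eq_true_eq] at hxj
  rw [(key k hk).2, decide_eq_false_iff_not]
  exact core i hi j hj k hk hij hik hjk hxi hxj

/-! ## The eight types of configurations -/

theorem anti2 {m : Fin 9 → Fin 9 → Fin 9 → Fin 9 → ℤ} (hm : LinkingData m) (a b c d : Fin 9) :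
    m a b d c = - m a b c d := by
  have h1 := hm.symm a b d c
  have h2 := hm.symm a b c d
  have h3 := hm.anti c d a b
  linarith

/-- the matrix with both pairs normalised to increasing order -/
def nm (M : ℕ → ℕ → ℕ → ℕ → ℤ) (a b c d : ℕ) : ℤ :=
  if a ≤ b then (if c ≤ d then M a b c d else - M a b d c)
  else (if c ≤ d then - M b a c d else M b a d c)

theorem m_eq {m : Fin 9 → Fin 9 → Fin 9 → Fin 9 → ℤ} (hm : LinkingData m) {v : ℕ → Fin 9}
    {M : ℕ → ℕ → ℕ → ℕ → ℤ} (hM : ∀ a b c d, M a b c d = m (v a) (v b) (v c) (v d))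
    (a b c d : ℕ) : m (v a) (v b) (v c) (v d) = nm M a b c d := by
  unfold nm
  simp only [hM]
  split_ifs
  · rfl
  · exact anti2 hm _ _ _ _
  · exact hm.anti _ _ _ _
  · rw [anti2 hm, hm.anti]; ring

set_option linter.unusedSimpArgs false in
theorem face0 {m : Fin 9 → Fin 9 → Fin 9 → Fin 9 → ℤ} (hm : LinkingData m)
    (H : ∀ C D : GCycle (⊤ : SimpleGraph (Fin 9)), (∀ i j, C.vert i ≠ D.vert j) →
      ∀ n : ℤ, 2 * n = cycSum m C D → |n| ≤ 1)
    {v : ℕ → Fin 9} (hv : Inj9 v) :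
    ∀ i < 4, ∀ j < 4, ∀ k < 4, i ≠ j → i ≠ k → j ≠ k →
    faceX (par m) v 0 i = true → faceX (par m) v 0 j = true → faceX (par m) v 0 k = false := by
  obtain ⟨M, hM⟩ : ∃ M : ℕ → ℕ → ℕ → ℕ → ℤ, ∀ a b c d, M a b c d = m (v a) (v b) (v c) (v d) :=
    ⟨_, fun _ _ _ _ => rfl⟩
  apply face_of hm H hv 0 (by norm_num) [0,1,2] [4,5,3,6] [5,4,3,6] [6,4,3,5]
    (by decide) (by decide) (by decide) (by decide) (by decide) (by decide) (by decide)
    (by decide) (by decide) (by decide)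
  all_goals
    simp only [faceI, fanI, fanI1, typ, nth, listSum, triSum, List.length_cons, List.length_nil,
      Finset.sum_range_succ, Finset.sum_range_zero, zero_add, add_zero, List.getD_cons_zero,
      List.getD_cons_succ, Nat.reduceAdd, Nat.reduceMod, m_eq hm hM]
    simp only [nm, Nat.reduceLeDiff, if_true, if_false, zero_le]
    ring

set_option linter.unusedSimpArgs false in
theorem face1 {m : Fin 9 → Fin 9 → Fin 9 → Fin 9 → ℤ} (hm : LinkingData m)
    (H : ∀ C D : GCycle (⊤ : SimpleGraph (Fin 9)), (∀ i j, C.vert i ≠ D.vert j) →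
      ∀ n : ℤ, 2 * n = cycSum m C D → |n| ≤ 1)
    {v : ℕ → Fin 9} (hv : Inj9 v) :
    ∀ i < 4, ∀ j < 4, ∀ k < 4, i ≠ j → i ≠ k → j ≠ k →
    faceX (par m) v 1 i = true → faceX (par m) v 1 j = true → faceX (par m) v 1 k = false := by
  obtain ⟨M, hM⟩ : ∃ M : ℕ → ℕ → ℕ → ℕ → ℤ, ∀ a b c d, M a b c d = m (v a) (v b) (v c) (v d) :=
    ⟨_, fun _ _ _ _ => rfl⟩
  apply face_of hm H hv 1 (by norm_num) [0,1,2] [4,5,3,6] [5,4,7,3,6] [6,4,7,3,5]
    (by decide) (by decide) (by decide) (by decide) (by decide) (by decide) (by decide)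
    (by decide) (by decide) (by decide)
  all_goals
    simp only [faceI, fanI, fanI1, typ, nth, listSum, triSum, List.length_cons, List.length_nil,
      Finset.sum_range_succ, Finset.sum_range_zero, zero_add, add_zero, List.getD_cons_zero,
      List.getD_cons_succ, Nat.reduceAdd, Nat.reduceMod, m_eq hm hM]
    simp only [nm, Nat.reduceLeDiff, if_true, if_false, zero_le]
    ring

set_option linter.unusedSimpArgs false in
theorem face2 {m : Fin 9 → Fin 9 → Fin 9 → Fin 9 → ℤ} (hm : LinkingData m)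
    (H : ∀ C D : GCycle (⊤ : SimpleGraph (Fin 9)), (∀ i j, C.vert i ≠ D.vert j) →
      ∀ n : ℤ, 2 * n = cycSum m C D → |n| ≤ 1)
    {v : ℕ → Fin 9} (hv : Inj9 v) :
    ∀ i < 4, ∀ j < 4, ∀ k < 4, i ≠ j → i ≠ k → j ≠ k →
    faceX (par m) v 2 i = true → faceX (par m) v 2 j = true → faceX (par m) v 2 k = false := by
  obtain ⟨M, hM⟩ : ∃ M : ℕ → ℕ → ℕ → ℕ → ℤ, ∀ a b c d, M a b c d = m (v a) (v b) (v c) (v d) :=
    ⟨_, fun _ _ _ _ => rfl⟩
  apply face_of hm H hv 2 (by norm_num) [0,1,2] [4,5,3,6] [5,4,8,7,3,6] [6,4,8,7,3,5]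
    (by decide) (by decide) (by decide) (by decide) (by decide) (by decide) (by decide)
    (by decide) (by decide) (by decide)
  all_goals
    simp only [faceI, fanI, fanI1, typ, nth, listSum, triSum, List.length_cons, List.length_nil,
      Finset.sum_range_succ, Finset.sum_range_zero, zero_add, add_zero, List.getD_cons_zero,
      List.getD_cons_succ, Nat.reduceAdd, Nat.reduceMod, m_eq hm hM]
    simp only [nm, Nat.reduceLeDiff, if_true, if_false, zero_le]
    ring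

set_option linter.unusedSimpArgs false in
theorem face3 {m : Fin 9 → Fin 9 → Fin 9 → Fin 9 → ℤ} (hm : LinkingData m)
    (H : ∀ C D : GCycle (⊤ : SimpleGraph (Fin 9)), (∀ i j, C.vert i ≠ D.vert j) →
      ∀ n : ℤ, 2 * n = cycSum m C D → |n| ≤ 1)
    {v : ℕ → Fin 9} (hv : Inj9 v) :
    ∀ i < 4, ∀ j < 4, ∀ k < 4, i ≠ j → i ≠ k → j ≠ k →
    faceX (par m) v 3 i = true → faceX (par m) v 3 j = true → faceX (par m) v 3 k = false := by
  obtain ⟨M, hM⟩ : ∃ M : ℕ → ℕ → ℕ → ℕ → ℤ, ∀ a b c d, M a b c d = m (v a) (v b) (v c) (v d) :=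
    ⟨_, fun _ _ _ _ => rfl⟩
  apply face_of hm H hv 3 (by norm_num) [0,1,2] [4,5,8,3,6] [5,4,7,3,6] [6,4,7,3,8,5]
    (by decide) (by decide) (by decide) (by decide) (by decide) (by decide) (by decide)
    (by decide) (by decide) (by decide)
  all_goals
    simp only [faceI, fanI, fanI1, typ, nth, listSum, triSum, List.length_cons, List.length_nil,
      Finset.sum_range_succ, Finset.sum_range_zero, zero_add, add_zero, List.getD_cons_zero,
      List.getD_cons_succ, Nat.reduceAdd, Nat.reduceMod, m_eq hm hM]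
    simp only [nm, Nat.reduceLeDiff, if_true, if_false, zero_le]
    ring

set_option linter.unusedSimpArgs false in
theorem face4 {m : Fin 9 → Fin 9 → Fin 9 → Fin 9 → ℤ} (hm : LinkingData m)
    (H : ∀ C D : GCycle (⊤ : SimpleGraph (Fin 9)), (∀ i j, C.vert i ≠ D.vert j) →
      ∀ n : ℤ, 2 * n = cycSum m C D → |n| ≤ 1)
    {v : ℕ → Fin 9} (hv : Inj9 v) :
    ∀ i < 4, ∀ j < 4, ∀ k < 4, i ≠ j → i ≠ k → j ≠ k →
    faceX (par m) v 4 i = true → faceX (par m) v 4 j = true → faceX (par m) v 4 k = false := by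
  obtain ⟨M, hM⟩ : ∃ M : ℕ → ℕ → ℕ → ℕ → ℤ, ∀ a b c d, M a b c d = m (v a) (v b) (v c) (v d) :=
    ⟨_, fun _ _ _ _ => rfl⟩
  apply face_of hm H hv 4 (by norm_num) [0,1,2] [4,5,3,6] [5,4,7,3,6,8] [6,4,7,3,5,8]
    (by decide) (by decide) (by decide) (by decide) (by decide) (by decide) (by decide)
    (by decide) (by decide) (by decide)
  all_goals
    simp only [faceI, fanI, fanI1, typ, nth, listSum, triSum, List.length_cons, List.length_nil,
      Finset.sum_range_succ, Finset.sum_range_zero, zero_add, add_zero, List.getD_cons_zero,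
      List.getD_cons_succ, Nat.reduceAdd, Nat.reduceMod, m_eq hm hM]
    simp only [nm, Nat.reduceLeDiff, if_true, if_false, zero_le]
    ring

set_option linter.unusedSimpArgs false in
theorem face5 {m : Fin 9 → Fin 9 → Fin 9 → Fin 9 → ℤ} (hm : LinkingData m)
    (H : ∀ C D : GCycle (⊤ : SimpleGraph (Fin 9)), (∀ i j, C.vert i ≠ D.vert j) →
      ∀ n : ℤ, 2 * n = cycSum m C D → |n| ≤ 1)
    {v : ℕ → Fin 9} (hv : Inj9 v) :
    ∀ i < 4, ∀ j < 4, ∀ k < 4, i ≠ j → i ≠ k → j ≠ k →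
    faceX (par m) v 5 i = true → faceX (par m) v 5 j = true → faceX (par m) v 5 k = false := by
  obtain ⟨M, hM⟩ : ∃ M : ℕ → ℕ → ℕ → ℕ → ℤ, ∀ a b c d, M a b c d = m (v a) (v b) (v c) (v d) :=
    ⟨_, fun _ _ _ _ => rfl⟩
  apply face_of hm H hv 5 (by norm_num) [0,1,2,3] [5,6,4,7] [6,5,4,7] [7,5,4,6]
    (by decide) (by decide) (by decide) (by decide) (by decide) (by decide) (by decide)
    (by decide) (by decide) (by decide)
  all_goals
    simp only [faceI, fanI, fanI1, typ, nth, listSum, triSum, List.length_cons, List.length_nil,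
      Finset.sum_range_succ, Finset.sum_range_zero, zero_add, add_zero, List.getD_cons_zero,
      List.getD_cons_succ, Nat.reduceAdd, Nat.reduceMod, m_eq hm hM]
    simp only [nm, Nat.reduceLeDiff, if_true, if_false, zero_le]
    ring

set_option linter.unusedSimpArgs false in
theorem face6 {m : Fin 9 → Fin 9 → Fin 9 → Fin 9 → ℤ} (hm : LinkingData m)
    (H : ∀ C D : GCycle (⊤ : SimpleGraph (Fin 9)), (∀ i j, C.vert i ≠ D.vert j) →
      ∀ n : ℤ, 2 * n = cycSum m C D → |n| ≤ 1)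
    {v : ℕ → Fin 9} (hv : Inj9 v) :
    ∀ i < 4, ∀ j < 4, ∀ k < 4, i ≠ j → i ≠ k → j ≠ k →
    faceX (par m) v 6 i = true → faceX (par m) v 6 j = true → faceX (par m) v 6 k = false := by
  obtain ⟨M, hM⟩ : ∃ M : ℕ → ℕ → ℕ → ℕ → ℤ, ∀ a b c d, M a b c d = m (v a) (v b) (v c) (v d) :=
    ⟨_, fun _ _ _ _ => rfl⟩
  apply face_of hm H hv 6 (by norm_num) [0,1,2,3] [5,6,4,7] [6,5,8,4,7] [7,5,8,4,6]
    (by decide) (by decide) (by decide) (by decide) (by decide) (by decide) (by decide)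
    (by decide) (by decide) (by decide)
  all_goals
    simp only [faceI, fanI, fanI1, typ, nth, listSum, triSum, List.length_cons, List.length_nil,
      Finset.sum_range_succ, Finset.sum_range_zero, zero_add, add_zero, List.getD_cons_zero,
      List.getD_cons_succ, Nat.reduceAdd, Nat.reduceMod, m_eq hm hM]
    simp only [nm, Nat.reduceLeDiff, if_true, if_false, zero_le]
    ring

set_option linter.unusedSimpArgs false in
theorem face7 {m : Fin 9 → Fin 9 → Fin 9 → Fin 9 → ℤ} (hm : LinkingData m)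
    (H : ∀ C D : GCycle (⊤ : SimpleGraph (Fin 9)), (∀ i j, C.vert i ≠ D.vert j) →
      ∀ n : ℤ, 2 * n = cycSum m C D → |n| ≤ 1)
    {v : ℕ → Fin 9} (hv : Inj9 v) :
    ∀ i < 4, ∀ j < 4, ∀ k < 4, i ≠ j → i ≠ k → j ≠ k →
    faceX (par m) v 7 i = true → faceX (par m) v 7 j = true → faceX (par m) v 7 k = false := by
  obtain ⟨M, hM⟩ : ∃ M : ℕ → ℕ → ℕ → ℕ → ℤ, ∀ a b c d, M a b c d = m (v a) (v b) (v c) (v d) :=
    ⟨_, fun _ _ _ _ => rfl⟩
  apply face_of hm H hv 7 (by norm_num) [0,1,2,3,4] [6,7,5,8] [7,6,5,8] [8,6,5,7]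
    (by decide) (by decide) (by decide) (by decide) (by decide) (by decide) (by decide)
    (by decide) (by decide) (by decide)
  all_goals
    simp only [faceI, fanI, fanI1, typ, nth, listSum, triSum, List.length_cons, List.length_nil,
      Finset.sum_range_succ, Finset.sum_range_zero, zero_add, add_zero, List.getD_cons_zero,
      List.getD_cons_succ, Nat.reduceAdd, Nat.reduceMod, m_eq hm hM]
    simp only [nm, Nat.reduceLeDiff, if_true, if_false, zero_le]
    ring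

theorem jobS : JobS := by
  intro m hm H
  refine ⟨?_, ?_, ?_, ?_, ?_, ?_⟩
  · intro v hv
    have h : triSum m (v 1) (v 2) (v 0) (v 3) (v 4) (v 5) =
        triSum m (v 0) (v 1) (v 2) (v 3) (v 4) (v 5) := by
      unfold triSum; ring
    simp only [par, h]
  · intro v hv
    have h : triSum m (v 1) (v 0) (v 2) (v 3) (v 4) (v 5) =
        - triSum m (v 0) (v 1) (v 2) (v 3) (v 4) (v 5) := by
      unfold triSum
      simp only [hm.anti (v 0) (v 1), hm.anti (v 2) (v 0), hm.anti (v 1) (v 2)]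
      ring
    simp only [par, h]
    by_cases h1 : triSum m (v 0) (v 1) (v 2) (v 3) (v 4) (v 5) % 4 = 2
    · have h2 : - triSum m (v 0) (v 1) (v 2) (v 3) (v 4) (v 5) % 4 = 2 := by omega
      simp [h1, h2]
    · have h2 : ¬ - triSum m (v 0) (v 1) (v 2) (v 3) (v 4) (v 5) % 4 = 2 := by omega
      simp [h1, h2]
  · intro v hv
    have h : triSum m (v 3) (v 4) (v 5) (v 0) (v 1) (v 2) =
        triSum m (v 0) (v 1) (v 2) (v 3) (v 4) (v 5) := by
      unfold triSum
      simp only [hm.symm (v 0) (v 1), hm.symm (v 1) (v 2), hm.symm (v 2) (v 0)]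
      ring
    simp only [par, h]
  · intro v hv
    have e1 := even' hm hv 0 1 2 3 4 5 (by decide) (by decide)
    have e2 := even' hm hv 0 1 2 3 4 6 (by decide) (by decide)
    have e3 := even' hm hv 0 1 2 3 5 6 (by decide) (by decide)
    have e4 := even' hm hv 0 1 2 4 5 6 (by decide) (by decide)
    simp only [par]
    rw [xor_dec _ _ e1 e2, xor_dec _ _ (dvd_add e1 e2) e3,
      xor_dec _ _ (dvd_add (dvd_add e1 e2) e3) e4, decide_eq_false_iff_not]
    have h : triSum m (v 0) (v 1) (v 2) (v 3) (v 4) (v 5)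
        - triSum m (v 0) (v 1) (v 2) (v 3) (v 4) (v 6)
        + triSum m (v 0) (v 1) (v 2) (v 3) (v 5) (v 6)
        - triSum m (v 0) (v 1) (v 2) (v 4) (v 5) (v 6) = 0 := by
      unfold triSum
      simp only [anti2 hm _ _ (v 3) (v 5), anti2 hm _ _ (v 3) (v 6), anti2 hm _ _ (v 4) (v 6)]
      ring
    omega
  · intro v hv
    have P := hm.parity (fun i => v i.val) (by
      intro i j hij
      exact Fin.ext (hv _ (by omega) _ (by omega) hij))
    have e1 := even' hm hv 0 1 2 3 4 5 (by decide) (by decide)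
    have e2 := even' hm hv 0 1 3 2 4 5 (by decide) (by decide)
    have e3 := even' hm hv 0 1 4 2 3 5 (by decide) (by decide)
    have e4 := even' hm hv 0 1 5 2 3 4 (by decide) (by decide)
    have e5 := even' hm hv 0 2 3 1 4 5 (by decide) (by decide)
    have e6 := even' hm hv 0 2 4 1 3 5 (by decide) (by decide)
    have e7 := even' hm hv 0 2 5 1 3 4 (by decide) (by decide)
    have e8 := even' hm hv 0 3 4 1 2 5 (by decide) (by decide)
    have e9 := even' hm hv 0 3 5 1 2 4 (by decide) (by decide)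
    have e10 := even' hm hv 0 4 5 1 2 3 (by decide) (by decide)
    have f2 := dvd_add e1 e2
    have f3 := dvd_add f2 e3
    have f4 := dvd_add f3 e4
    have f5 := dvd_add f4 e5
    have f6 := dvd_add f5 e6
    have f7 := dvd_add f6 e7
    have f8 := dvd_add f7 e8
    have f9 := dvd_add f8 e9
    simp only [par]
    rw [xor_dec _ _ e1 e2, xor_dec _ _ f2 e3, xor_dec _ _ f3 e4, xor_dec _ _ f4 e5,
      xor_dec _ _ f5 e6, xor_dec _ _ f6 e7, xor_dec _ _ f7 e8, xor_dec _ _ f8 e9,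
      xor_dec _ _ f9 e10, decide_eq_true_eq]
    obtain ⟨k, hk⟩ := P
    change triSum m (v 0) (v 1) (v 2) (v 3) (v 4) (v 5) / 2
      + triSum m (v 0) (v 1) (v 3) (v 2) (v 4) (v 5) / 2
      + triSum m (v 0) (v 1) (v 4) (v 2) (v 3) (v 5) / 2
      + triSum m (v 0) (v 1) (v 5) (v 2) (v 3) (v 4) / 2
      + triSum m (v 0) (v 2) (v 3) (v 1) (v 4) (v 5) / 2
      + triSum m (v 0) (v 2) (v 4) (v 1) (v 3) (v 5) / 2
      + triSum m (v 0) (v 2) (v 5) (v 1) (v 3) (v 4) / 2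
      + triSum m (v 0) (v 3) (v 4) (v 1) (v 2) (v 5) / 2
      + triSum m (v 0) (v 3) (v 5) (v 1) (v 2) (v 4) / 2
      + triSum m (v 0) (v 4) (v 5) (v 1) (v 2) (v 3) / 2 = 2 * k + 1 at hk
    omega
  · intro v hv t ht
    interval_cases t
    · exact face0 hm H hv
    · exact face1 hm H hv
    · exact face2 hm H hv
    · exact face3 hm H hv
    · exact face4 hm H hv
    · exact face5 hm H hv
    · exact face6 hm H hv
    · exact face7 hm H hv

end Pool.Agent.H33.K9S
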