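import Mathlib

set_option autoImplicit false

open Filter Topology Set
open scoped ContDiff NNReal

namespace Pool.Agent.H33.LipElem

/-! ### Truncated powers -/

lemma hasDerivAt_posPart_pow (m : ℕ) (w : ℝ) :
    HasDerivAt (fun w : ℝ => (max w 0) ^ (m + 2)) (((m + 2 : ℕ) : ℝ) * (max w 0) ^ (m + 1)) w := by
  rcases lt_trichotomy w 0 with hw | hw | hw
  · have h1 : (fun w : ℝ => (max w 0) ^ (m + 2)) =ᶠ[𝓝 w] fun _ => (0 : ℝ) := by
      filter_upwards [Iio_mem_nhds hw] with x hx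
      rw [max_eq_right (le_of_lt hx)]
      simp
    have h2 : ((m + 2 : ℕ) : ℝ) * (max w 0) ^ (m + 1) = 0 := by
      rw [max_eq_right hw.le]; simp
    rw [h2]
    exact (hasDerivAt_const w (0 : ℝ)).congr_of_eventuallyEq h1
  · subst hw
    have h2 : ((m + 2 : ℕ) : ℝ) * (max (0 : ℝ) 0) ^ (m + 1) = 0 := by simp
    rw [h2, hasDerivAt_iff_tendsto_slope]
    have hc : Continuous (fun w : ℝ => (max w 0) ^ (m + 1)) := by fun_prop
    have h3 : Tendsto (fun w : ℝ => (max w 0) ^ (m + 1)) (𝓝[≠] 0) (𝓝 0) := by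
      have := (hc.tendsto 0).mono_left (nhdsWithin_le_nhds (s := {0}ᶜ))
      simpa using this
    refine h3.congr' ?_
    filter_upwards [self_mem_nhdsWithin] with x hx
    have hx : x ≠ 0 := hx
    rw [slope_def_field]
    simp only [max_self, ne_eq, Nat.add_eq_zero_iff, OfNat.ofNat_ne_zero, and_false,
      not_false_eq_true, zero_pow, sub_zero]
    rcases lt_or_gt_of_ne hx with h | h
    · rw [max_eq_right h.le]; simp
    · rw [max_eq_left h.le]
      field_simp
      ring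
  · have h1 : (fun w : ℝ => (max w 0) ^ (m + 2)) =ᶠ[𝓝 w] fun w => w ^ (m + 2) := by
      filter_upwards [Ioi_mem_nhds hw] with x hx
      rw [max_eq_left (le_of_lt hx)]
    rw [max_eq_left hw.le]
    have := (hasDerivAt_pow (m + 2) w).congr_of_eventuallyEq h1
    simpa using this

lemma hasDerivAt_trunc (m : ℕ) (K : ℝ → ℝ) (hK : ContDiff ℝ ∞ K) (w : ℝ) :
    HasDerivAt (fun w : ℝ => (max w 0) ^ (m + 2) * K w)
      ((max w 0) ^ (m + 1) * (((m + 2 : ℕ) : ℝ) * K w + w * deriv K w)) w := by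
  have h1 := (hasDerivAt_posPart_pow m w).mul
    ((hK.differentiable (by simp)) w).hasDerivAt
  refine h1.congr_deriv ?_
  have h2 : (max w 0) ^ (m + 2) = (max w 0) ^ (m + 1) * w := by
    rcases le_total w 0 with h | h
    · rw [max_eq_right h]; simp
    · rw [max_eq_left h]; ring
  rw [h2]; ring

lemma trunc_main (n : ℕ) : ∀ (K : ℝ → ℝ), ContDiff ℝ ∞ K → HasCompactSupport K →
    ContDiff ℝ n (fun w : ℝ => (max w 0) ^ (n + 1) * K w) ∧
      ∃ C, LipschitzWith C (iteratedDeriv n (fun w : ℝ => (max w 0) ^ (n + 1) * K w)) := by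
  induction n with
  | zero =>
    intro K hK hKc
    refine ⟨?_, ?_⟩
    · simp only [Nat.cast_zero, zero_add, pow_one]
      rw [contDiff_zero]
      exact (continuous_id.max continuous_const).mul hK.continuous
    · have h1 : ContDiff ℝ ∞ (fun w => w * K w) := contDiff_id.mul hK
      have h2 : HasCompactSupport (fun w => w * K w) := hKc.mul_left
      obtain ⟨C, hC⟩ := h1.lipschitzWith_of_hasCompactSupport h2 (by simp)
      refine ⟨C * 1, ?_⟩
      have h3 : iteratedDeriv 0 (fun w : ℝ => (max w 0) ^ (0 + 1) * K w) =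
          (fun w => w * K w) ∘ (fun w => max w 0) := by
        rw [iteratedDeriv_zero]
        funext w
        simp only [zero_add, pow_one, Function.comp]
        rcases le_total w 0 with h | h
        · rw [max_eq_right h]; simp
        · rw [max_eq_left h]
      rw [h3]
      exact hC.comp (LipschitzWith.id.max_const 0)
  | succ n ih =>
    intro K hK hKc
    have hd : deriv (fun w : ℝ => (max w 0) ^ (n + 1 + 1) * K w) =
        fun w => (max w 0) ^ (n + 1) * (((n + 2 : ℕ) : ℝ) * K w + w * deriv K w) := by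
      funext w
      exact (hasDerivAt_trunc n K hK w).deriv
    have hK' : ContDiff ℝ ∞ (deriv K) := by
      have : ContDiff ℝ (∞ + 1) K := by simpa using hK
      exact ((contDiff_succ_iff_deriv (n := ∞)).1 this).2.2
    have hK2 : ContDiff ℝ ∞ (fun w => ((n + 2 : ℕ) : ℝ) * K w + w * deriv K w) :=
      (contDiff_const.mul hK).add (contDiff_id.mul hK')
    have hK2c : HasCompactSupport (fun w => ((n + 2 : ℕ) : ℝ) * K w + w * deriv K w) :=
      (hKc.mul_left).add (hKc.deriv.mul_left)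
    obtain ⟨h1, C, h2⟩ := ih _ hK2 hK2c
    refine ⟨?_, C, ?_⟩
    · have : ((n + 1 : ℕ) : ℕ∞ω) = (n : ℕ∞ω) + 1 := by push_cast; rfl
      rw [this, contDiff_succ_iff_deriv]
      refine ⟨fun w => (hasDerivAt_trunc n K hK w).differentiableAt, by simp, ?_⟩
      rw [hd]
      exact h1
    · rw [iteratedDeriv_succ', hd]
      exact h2

/-! ### The profile near the fixed point -/

/-- `1 - (1+s)^(-1/k)` -/
noncomputable def psi (k : ℕ) (s : ℝ) : ℝ := 1 - (1 + s) ^ (-(1 / (k : ℝ)))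

lemma psi_zero (k : ℕ) : psi k 0 = 0 := by simp [psi]

lemma psi_analyticAt (k : ℕ) (s : ℝ) (hs : -1 < s) : AnalyticAt ℝ (psi k) s := by
  unfold psi
  have h1 : AnalyticAt ℝ (fun s : ℝ => (1 + s) ^ (-(1 / (k : ℝ)))) s := by
    have h2 : AnalyticAt ℝ (fun s : ℝ => 1 + s) s := analyticAt_const.add analyticAt_id
    have h3 : AnalyticAt ℝ (fun s : ℝ => Real.exp (Real.log (1 + s) * (-(1 / (k : ℝ))))) s :=
      ((h2.log (by linarith)).mul analyticAt_const).rexp
    refine h3.congr ?_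
    filter_upwards [Ioi_mem_nhds hs] with t ht
    have ht : -1 < t := ht
    rw [Real.rpow_def_of_pos (by linarith)]
  exact analyticAt_const.sub h1

lemma psi1_analyticAt (k : ℕ) (s : ℝ) (hs : -1 < s) : AnalyticAt ℝ (dslope (psi k) 0) s := by
  rcases eq_or_ne s 0 with rfl | h0
  · obtain ⟨p, hp⟩ := psi_analyticAt k 0 hs
    exact ⟨_, hp.has_fpower_series_dslope_fslope⟩
  · have h1 : AnalyticAt ℝ (fun t => (t - 0)⁻¹ * (psi k t - psi k 0)) s :=
      ((analyticAt_id.sub analyticAt_const).inv (by simpa using h0)).mul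
        ((psi_analyticAt k s hs).sub analyticAt_const)
    refine h1.congr ?_
    filter_upwards [isOpen_ne.mem_nhds h0] with t ht
    rw [dslope_of_ne _ ht, slope_def_field, div_eq_inv_mul]

/-- cut-off, `1` on `[0,1]`, `0` outside `(-1/2, 2)` -/
noncomputable def rho (w : ℝ) : ℝ :=
  Real.smoothTransition (2 * w + 1) * (1 - Real.smoothTransition (w - 1))

lemma rho_contDiff : ContDiff ℝ ∞ rho := by
  unfold rho
  have h1 : ContDiff ℝ ∞ (fun w : ℝ => 2 * w + 1) := by fun_prop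
  have h2 : ContDiff ℝ ∞ (fun w : ℝ => w - 1) := by fun_prop
  exact ((Real.smoothTransition.contDiff (n := ⊤)).comp h1).mul
    (contDiff_const.sub ((Real.smoothTransition.contDiff (n := ⊤)).comp h2))

/-- the smooth coefficient -/
noncomputable def K (k : ℕ) (w : ℝ) : ℝ := rho w * dslope (psi k) 0 (w ^ k)

lemma rho_eq_zero_left {w : ℝ} (hw : w ≤ -1 / 2) : rho w = 0 := by
  unfold rho
  rw [Real.smoothTransition.zero_of_nonpos (by linarith)]
  simp

lemma rho_eq_zero_right {w : ℝ} (hw : 2 ≤ w) : rho w = 0 := by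
  unfold rho
  rw [Real.smoothTransition.one_of_one_le (x := w - 1) (by linarith)]
  simp

lemma rho_of_nonneg {w : ℝ} (hw : 0 ≤ w) : rho w = 1 - Real.smoothTransition (w - 1) := by
  unfold rho
  rw [Real.smoothTransition.one_of_one_le (x := 2 * w + 1) (by linarith)]
  simp

lemma K_contDiff (k : ℕ) (hk : 1 ≤ k) : ContDiff ℝ ∞ (K k) := by
  rw [contDiff_iff_contDiffAt]
  intro w
  rcases lt_or_ge w (-1 / 2) with hw | hw
  · have h1 : K k =ᶠ[𝓝 w] fun _ => (0 : ℝ) := by
      filter_upwards [Iio_mem_nhds hw] with x hx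
      unfold K
      rw [rho_eq_zero_left (le_of_lt hx), zero_mul]
    exact contDiffAt_const.congr_of_eventuallyEq h1
  · have h2 : -1 < w ^ k := by
      rcases le_or_gt 0 w with h | h
      · have := pow_nonneg h k; linarith
      · have h3 : |w ^ k| < 1 := by
          rw [abs_pow]
          apply pow_lt_one₀ (abs_nonneg _) _ (by omega)
          rw [abs_lt]; constructor <;> linarith
        exact (abs_lt.1 h3).1
    have h3 : ContDiffAt ℝ ∞ (fun w : ℝ => dslope (psi k) 0 (w ^ k)) w :=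
      ContDiffAt.comp w ((psi1_analyticAt k (w ^ k) h2).contDiffAt) (by fun_prop)
    exact rho_contDiff.contDiffAt.mul h3

lemma K_hasCompactSupport (k : ℕ) : HasCompactSupport (K k) := by
  apply HasCompactSupport.intro (isCompact_Icc (a := (-1 / 2 : ℝ)) (b := 2))
  intro x hx
  rw [Set.mem_Icc, not_and_or, not_le, not_le] at hx
  unfold K
  rcases hx with hx | hx
  · rw [rho_eq_zero_left hx.le, zero_mul]
  · rw [rho_eq_zero_right hx.le, zero_mul]

/-- the profile `v`: identity on `(-∞, 0]` and on `[2, ∞)`, `w (1+w^k)^(-1/k)` on `[0,1]`. -/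
noncomputable def v (k : ℕ) (w : ℝ) : ℝ := w - (max w 0) ^ (k + 1) * K k w

lemma v_of_nonpos (k : ℕ) {w : ℝ} (hw : w ≤ 0) : v k w = w := by
  unfold v
  rw [max_eq_right hw]; simp

lemma v_of_ge (k : ℕ) {w : ℝ} (hw : 2 ≤ w) : v k w = w := by
  unfold v K
  rw [rho_eq_zero_right hw]; simp

/-- `w (1+w^k)^(-1/k)` -/
noncomputable def U0 (k : ℕ) (w : ℝ) : ℝ := w * (1 + w ^ k) ^ (-(1 / (k : ℝ)))

lemma v_of_pos (k : ℕ) {w : ℝ} (hw : 0 < w) :
    v k w = w - (1 - Real.smoothTransition (w - 1)) * (w - U0 k w) := by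
  unfold v K U0
  rw [max_eq_left hw.le, rho_of_nonneg hw.le]
  have h1 : w ^ k ≠ 0 := (pow_pos hw k).ne'
  rw [dslope_of_ne _ h1, slope_def_field, psi_zero, sub_zero, sub_zero]
  unfold psi
  rw [pow_succ]
  field_simp

lemma v_eq_U0 (k : ℕ) {w : ℝ} (hw : 0 ≤ w) (hw1 : w ≤ 1) : v k w = U0 k w := by
  rcases hw.eq_or_lt with rfl | h
  · rw [v_of_nonpos k le_rfl]; simp [U0]
  · rw [v_of_pos k h, Real.smoothTransition.zero_of_nonpos (by linarith)]
    ring

lemma U0_hasDerivAt (k : ℕ) (hk : 1 ≤ k) {w : ℝ} (hw : 0 < w) :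
    HasDerivAt (U0 k) ((1 + w ^ k) ^ (-(1 / (k : ℝ)) - 1)) w := by
  have hk0 : (k : ℝ) ≠ 0 := by positivity
  have hp : 0 < 1 + w ^ k := by positivity
  have h1 : HasDerivAt (fun w : ℝ => 1 + w ^ k) ((k : ℝ) * w ^ (k - 1)) w := by
    simpa using (hasDerivAt_pow k w).const_add 1
  have h2 := h1.rpow_const (p := -(1 / (k : ℝ))) (Or.inl hp.ne')
  have h3 := (hasDerivAt_id w).mul h2
  unfold U0
  refine h3.congr_deriv ?_
  have h4 : (1 + w ^ k) ^ (-(1 / (k : ℝ))) = (1 + w ^ k) ^ (-(1 / (k : ℝ)) - 1) * (1 + w ^ k) := by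
    rw [Real.rpow_sub_one hp.ne']
    field_simp
  have h5 : w * w ^ (k - 1) = w ^ k := by
    rw [← pow_succ']; congr 1; omega
  simp only [id, one_mul]
  rw [h4]
  set A := (1 + w ^ k) ^ (-(1 / (k : ℝ)) - 1)
  have : w * ((k : ℝ) * w ^ (k - 1) * -(1 / (k : ℝ)) * A) = - (w * w ^ (k - 1)) * A := by
    field_simp
  rw [this, h5]
  ring

lemma U0_lt (k : ℕ) (hk : 1 ≤ k) {w : ℝ} (hw : 0 < w) : U0 k w < w := by
  unfold U0
  have hk0 : (0 : ℝ) < k := by positivity
  have h1 : (1 + w ^ k) ^ (-(1 / (k : ℝ))) < 1 := by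
    apply Real.rpow_lt_one_of_one_lt_of_neg
    · have := pow_pos hw k; linarith
    · have : 0 < 1 / (k : ℝ) := by positivity
      linarith
  calc w * (1 + w ^ k) ^ (-(1 / (k : ℝ))) < w * 1 := mul_lt_mul_of_pos_left h1 hw
    _ = w := mul_one w

lemma v_hasDerivAt (k : ℕ) (hk : 1 ≤ k) (w : ℝ) : ∃ d : ℝ, 0 < d ∧ HasDerivAt (v k) d w := by
  rcases le_or_gt w 0 with hw | hw
  · refine ⟨1, one_pos, ?_⟩
    obtain ⟨m, rfl⟩ : ∃ m, k = m + 1 := ⟨k - 1, by omega⟩
    have h1 := (hasDerivAt_id w).sub (hasDerivAt_trunc m (K (m + 1)) (K_contDiff _ hk) w)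
    have h2 : (1 : ℝ) - (max w 0) ^ (m + 1) *
        (((m + 2 : ℕ) : ℝ) * K (m + 1) w + w * deriv (K (m + 1)) w) = 1 := by
      rw [max_eq_right hw]; simp
    rw [h2] at h1
    exact h1
  · have hd : HasDerivAt (fun x => x - (1 - Real.smoothTransition (x - 1)) * (x - U0 k x))
        (1 - ((0 - deriv Real.smoothTransition (w - 1)) * (w - U0 k w) +
          (1 - Real.smoothTransition (w - 1)) * (1 - (1 + w ^ k) ^ (-(1 / (k : ℝ)) - 1)))) w := by
      have h1 : HasDerivAt (fun x : ℝ => Real.smoothTransition (x - 1))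
          (deriv Real.smoothTransition (w - 1)) w := by
        have h2 : DifferentiableAt ℝ Real.smoothTransition (w - 1) :=
          (Real.smoothTransition.contDiff (n := ⊤)).differentiable (by simp) _
        have h3 : HasDerivAt (fun x : ℝ => x - 1) 1 w := (hasDerivAt_id w).sub_const 1
        have := h2.hasDerivAt.comp w h3
        rw [mul_one] at this
        exact this
      exact (hasDerivAt_id w).sub (((hasDerivAt_const w (1 : ℝ)).sub h1).mul
        ((hasDerivAt_id w).sub (U0_hasDerivAt k hk hw)))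
    refine ⟨_, ?_, hd.congr_of_eventuallyEq ?_⟩
    · have h1 : 0 ≤ deriv Real.smoothTransition (w - 1) := Real.smoothTransition.monotone.deriv_nonneg
      have h2 := U0_lt k hk hw
      have h3 : 0 < (1 + w ^ k) ^ (-(1 / (k : ℝ)) - 1) := Real.rpow_pos_of_pos (by positivity) _
      have h4 := Real.smoothTransition.nonneg (w - 1)
      have h5 := Real.smoothTransition.le_one (w - 1)
      have h6 : (1 + w ^ k) ^ (-(1 / (k : ℝ)) - 1) < 1 := by
        apply Real.rpow_lt_one_of_one_lt_of_neg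
        · have := pow_pos hw k; linarith
        · have : 0 ≤ 1 / (k : ℝ) := by positivity
          linarith
      set A := (1 + w ^ k) ^ (-(1 / (k : ℝ)) - 1)
      set s := Real.smoothTransition (w - 1)
      have h7 : 0 ≤ deriv Real.smoothTransition (w - 1) * (w - U0 k w) :=
        mul_nonneg h1 (by linarith)
      have h8 : (1 - s) * (1 - A) ≤ 1 * (1 - A) := mul_le_mul_of_nonneg_right (by linarith) (by linarith)
      nlinarith
    · filter_upwards [Ioi_mem_nhds hw] with x hx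
      exact v_of_pos k hx

lemma v_iterate (k : ℕ) (hk : 1 ≤ k) {w : ℝ} (hw : 0 ≤ w) (hw1 : w ≤ 1) (m : ℕ) :
    (v k)^[m] w = w * (1 + m * w ^ k) ^ (-(1 / (k : ℝ))) := by
  have hk0 : (k : ℝ) ≠ 0 := by positivity
  induction m with
  | zero => simp
  | succ m ih =>
    rw [Function.iterate_succ_apply', ih]
    have hp : 0 < 1 + m * w ^ k := by positivity
    have h1 : 0 ≤ (1 + m * w ^ k) ^ (-(1 / (k : ℝ))) := (Real.rpow_pos_of_pos hp _).le
    have h2 : (1 + m * w ^ k) ^ (-(1 / (k : ℝ))) ≤ 1 := by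
      apply Real.rpow_le_one_of_one_le_of_nonpos
      · have : 0 ≤ m * w ^ k := by positivity
        linarith
      · have : 0 ≤ 1 / (k : ℝ) := by positivity
        linarith
    rw [v_eq_U0 k (mul_nonneg hw h1) (by nlinarith)]
    unfold U0
    have h3 : ((1 + m * w ^ k) ^ (-(1 / (k : ℝ)))) ^ k = (1 + m * w ^ k)⁻¹ := by
      rw [← Real.rpow_natCast, ← Real.rpow_mul hp.le]
      have : -(1 / (k : ℝ)) * k = -1 := by field_simp
      rw [this, Real.rpow_neg_one]
    rw [mul_pow, h3, mul_assoc, ← Real.mul_rpow hp.le (by positivity)]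
    congr 2
    field_simp
    push_cast
    ring

lemma v_double (k : ℕ) (hk : 1 ≤ k) {w : ℝ} (hw : 0 ≤ w) (hw1 : w ≤ 1 / 2) :
    v k (2 * w) = 2 * (v k)^[2 ^ k] w := by
  rw [v_iterate k hk hw (by linarith), v_eq_U0 k (by linarith) (by linarith)]
  unfold U0
  rw [mul_pow]
  push_cast
  ring

lemma v_contDiff (k : ℕ) (hk : 1 ≤ k) : ContDiff ℝ k (v k) :=
  contDiff_id.sub (trunc_main k (K k) (K_contDiff k hk) (K_hasCompactSupport k)).1

lemma lipschitz_iteratedDeriv_id (k : ℕ) (hk : 1 ≤ k) :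
    ∃ C, LipschitzWith C (iteratedDeriv k (fun x : ℝ => x)) := by
  obtain ⟨m, rfl⟩ : ∃ m, k = m + 1 := ⟨k - 1, by omega⟩
  refine ⟨0, ?_⟩
  have h1 : iteratedDeriv (m + 1) (fun x : ℝ => x) = iteratedDeriv m (fun _ => (1 : ℝ)) := by
    rw [iteratedDeriv_succ']
    congr 1
    funext x
    simp
  rw [h1]
  rcases m with _ | m
  · rw [iteratedDeriv_zero]
    exact LipschitzWith.const _
  · have h2 : iteratedDeriv (m + 1) (fun _ : ℝ => (1 : ℝ)) = fun _ => 0 := by
      funext x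
      rw [iteratedDeriv_const]
      simp
    rw [h2]
    exact LipschitzWith.const _

lemma v_lipschitz (k : ℕ) (hk : 1 ≤ k) : ∃ C, LipschitzWith C (iteratedDeriv k (v k)) := by
  obtain ⟨C, hC⟩ := lipschitz_iteratedDeriv_id k hk
  have hm := trunc_main k (K k) (K_contDiff k hk) (K_hasCompactSupport k)
  obtain ⟨h1, D, hD⟩ := hm
  refine ⟨C + D, ?_⟩
  have h2 : iteratedDeriv k (v k) = fun x => iteratedDeriv k (fun x : ℝ => x) x -
      iteratedDeriv k (fun w : ℝ => (max w 0) ^ (k + 1) * K k w) x := by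
    funext x
    exact iteratedDeriv_sub contDiffAt_id h1.contDiffAt
  rw [h2]
  exact hC.sub hD

lemma v_continuous (k : ℕ) (hk : 1 ≤ k) : Continuous (v k) := (v_contDiff k hk).continuous

/-- `u x = - v (-x)` -/
noncomputable def uf (k : ℕ) (x : ℝ) : ℝ := - v k (-x)

lemma uf_hasDerivAt (k : ℕ) (hk : 1 ≤ k) (x : ℝ) : ∃ d : ℝ, 0 < d ∧ HasDerivAt (uf k) d x := by
  obtain ⟨d, hd, h⟩ := v_hasDerivAt k hk (-x)
  refine ⟨d, hd, ?_⟩
  have h1 : HasDerivAt (fun x : ℝ => -x) (-1) x := hasDerivAt_neg x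
  have h2 := (h.comp x h1).neg
  refine h2.congr_deriv ?_
  ring

lemma uf_strictMono (k : ℕ) (hk : 1 ≤ k) : StrictMono (uf k) := by
  apply strictMono_of_deriv_pos
  intro x
  obtain ⟨d, hd, h⟩ := uf_hasDerivAt k hk x
  rw [h.deriv]
  exact hd

lemma uf_contDiff (k : ℕ) (hk : 1 ≤ k) : ContDiff ℝ k (uf k) :=
  ((v_contDiff k hk).comp contDiff_neg).neg

lemma uf_of_nonneg (k : ℕ) {x : ℝ} (hx : 0 ≤ x) : uf k x = x := by
  unfold uf
  rw [v_of_nonpos k (by linarith)]; ring

lemma uf_of_le (k : ℕ) {x : ℝ} (hx : x ≤ -2) : uf k x = x := by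
  unfold uf
  rw [v_of_ge k (by linarith)]; ring

lemma uf_surjective (k : ℕ) (hk : 1 ≤ k) : Function.Surjective (uf k) := by
  apply (uf_contDiff k hk).continuous.surjective
  · refine tendsto_id.congr' ?_
    filter_upwards [eventually_ge_atTop 0] with x hx
    exact (uf_of_nonneg k hx).symm
  · refine tendsto_id.congr' ?_
    filter_upwards [eventually_le_atBot (-2)] with x hx
    exact (uf_of_le k hx).symm

lemma uf_lipschitz (k : ℕ) (hk : 1 ≤ k) : ∃ C, LipschitzWith C (iteratedDeriv k (uf k)) := by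
  obtain ⟨C, hC⟩ := v_lipschitz k hk
  refine ⟨C, ?_⟩
  have h1 : iteratedDeriv k (uf k) = fun x => - ((-1 : ℝ) ^ k * iteratedDeriv k (v k) (-x)) := by
    funext x
    have h2 : uf k = fun x => -((fun y => v k (-y)) x) := rfl
    rw [h2, iteratedDeriv_fun_neg, iteratedDeriv_comp_neg]
    rfl
  rw [h1]
  apply LipschitzWith.of_dist_le_mul
  intro x y
  have h3 := hC.dist_le_mul (-x) (-y)
  rw [dist_neg_neg] at h3
  rw [Real.dist_eq] at h3 ⊢
  have h4 : |-((-1 : ℝ) ^ k * iteratedDeriv k (v k) (-x)) -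
      -((-1 : ℝ) ^ k * iteratedDeriv k (v k) (-y))| =
      |iteratedDeriv k (v k) (-x) - iteratedDeriv k (v k) (-y)| := by
    have : -((-1 : ℝ) ^ k * iteratedDeriv k (v k) (-x)) -
      -((-1 : ℝ) ^ k * iteratedDeriv k (v k) (-y)) =
      -((-1 : ℝ) ^ k) * (iteratedDeriv k (v k) (-x) - iteratedDeriv k (v k) (-y)) := by ring
    rw [this, abs_mul, abs_neg, abs_pow, abs_neg, abs_one, one_pow, one_mul]
  rw [h4]
  exact h3

lemma uf_iterate (k : ℕ) (m : ℕ) (x : ℝ) : (uf k)^[m] x = - (v k)^[m] (-x) := by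
  induction m with
  | zero => simp
  | succ m ih =>
    rw [Function.iterate_succ_apply', Function.iterate_succ_apply', ih]
    unfold uf
    rw [neg_neg]

/-- the order isomorphism `u` -/
noncomputable def u (k : ℕ) (hk : 1 ≤ k) : ℝ ≃o ℝ :=
  (uf_strictMono k hk).orderIsoOfSurjective _ (uf_surjective k hk)

lemma u_coe (k : ℕ) (hk : 1 ≤ k) : (u k hk : ℝ → ℝ) = uf k := rfl

theorem exists_u (k : ℕ) (hk : 1 ≤ k) : ∃ u : ℝ ≃o ℝ, ContDiff ℝ k u ∧
    (∃ C, LipschitzWith C (iteratedDeriv k u)) ∧ ContDiff ℝ k u.symm ∧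
    (∀ x, 0 ≤ x → u x = x) ∧ (∀ x, x ≤ -8 → u x = x) ∧
    (∀ x, -1 ≤ x → x < 0 → x < u x) ∧
    (∀ x, -1 / 2 ≤ x → x ≤ 0 → u (2 * x) = 2 * (u^[2 ^ k] x)) := by
  refine ⟨u k hk, ?_, ?_, ?_, ?_, ?_, ?_, ?_⟩
  · rw [u_coe]; exact uf_contDiff k hk
  · rw [u_coe]; exact uf_lipschitz k hk
  · choose d hd h using uf_hasDerivAt k hk
    have := (u k hk).toHomeomorph.contDiff_symm_deriv (n := k) (f' := d)
      (fun x => (hd x).ne') (by exact h) (by exact uf_contDiff k hk)
    exact this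
  · intro x hx
    rw [u_coe]; exact uf_of_nonneg k hx
  · intro x hx
    rw [u_coe]; exact uf_of_le k (by linarith)
  · intro x hx hx0
    rw [u_coe]
    unfold uf
    rw [v_eq_U0 k (by linarith) (by linarith)]
    have := U0_lt k hk (w := -x) (by linarith)
    linarith
  · intro x hx hx0
    rw [u_coe, uf_iterate]
    have := v_double k hk (w := -x) (by linarith) (by linarith)
    have h2 : uf k (2 * x) = - v k (2 * -x) := by
      unfold uf
      congr 2; ring
    rw [h2, this]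
    ring

end Pool.Agent.H33.LipElem
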