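import Mathlib

set_option autoImplicit false

open Filter

namespace Pool.Agent.H33.ModRado

attribute [local instance] Ultrafilter.add Ultrafilter.addSemigroup

/-! ### Ultrafilter preliminaries -/

theorem uf_map_add {E F : Type*} [Add E] [Add F] (f : E → F)
    (hf : ∀ x y, f (x + y) = f x + f y) (U V : Ultrafilter E) :
    (U + V).map f = U.map f + V.map f := by
  apply Ultrafilter.coe_inj.mp
  apply Filter.ext'
  intro p
  rw [Ultrafilter.eventually_add]
  simp only [Ultrafilter.coe_map, Filter.eventually_map]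
  rw [Ultrafilter.eventually_add]
  simp only [hf]

theorem uf_continuous_map {E F : Type*} (f : E → F) :
    Continuous (fun U : Ultrafilter E => U.map f) :=
  ultrafilterBasis_is_basis.continuous_iff.2 <| Set.forall_mem_range.mpr fun s ↦
    ultrafilter_isOpen_basic (f ⁻¹' s)

theorem uf_map_map {E F G : Type*} (f : E → F) (g : F → G) (U : Ultrafilter E) :
    (U.map f).map g = U.map (g ∘ f) := by
  exact Ultrafilter.map_map U f g

theorem uf_pure_zero_add {E : Type*} [AddMonoid E] (U : Ultrafilter E) :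
    (pure 0 : Ultrafilter E) + U = U := by
  apply Ultrafilter.coe_inj.mp
  apply Filter.ext'
  intro p
  rw [Ultrafilter.eventually_add]
  simp

theorem uf_add_pure_zero {E : Type*} [AddMonoid E] (U : Ultrafilter E) :
    U + (pure 0 : Ultrafilter E) = U := by
  apply Ultrafilter.coe_inj.mp
  apply Filter.ext'
  intro p
  rw [Ultrafilter.eventually_add]
  simp

/-! ### The pigeonhole principle for difference sets -/

theorem exists_color {W : Type*} [AddCommGroup W] {K : ℕ} (c : W → Fin K) :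
    ∃ q : Fin K, ∀ G : ℕ → W, ∃ a b : ℕ, a < b ∧ b ≤ K ∧
      ∃ y₁ y₂ : W, c y₁ = q ∧ c y₂ = q ∧ G b - G a = y₁ - y₂ := by
  classical
  by_contra hcon
  push Not at hcon
  choose G hG using hcon
  let y : (Fin K → Fin (K + 1)) → W := fun α => ∑ q, G q (α q)
  have key : ∀ q : Fin K, ∀ α α' : Fin K → Fin (K + 1), (∀ l, l ≠ q → α l = α' l) →
      c (y α) = q → c (y α') = q → α q = α' q := by
    intro q
    have aux : ∀ α α' : Fin K → Fin (K + 1), (∀ l, l ≠ q → α l = α' l) →
      c (y α) = q → c (y α') = q → ¬ (α q < α' q) := by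
      intro α α' hl h1 h2 hlt
      refine hG q (α q) (α' q) hlt (Nat.lt_succ_iff.mp (α' q).2) (y α') (y α) h2 h1 ?_
      have : y α' - y α = ∑ l, (G l (α' l) - G l (α l)) := by
        simp [y, Finset.sum_sub_distrib]
      rw [this, Finset.sum_eq_single q]
      · intro l _ hlq
        rw [hl l hlq, sub_self]
      · intro h
        exact absurd (Finset.mem_univ q) h
    intro α α' hl h1 h2
    have h3 := aux α α' hl h1 h2
    have h4 := aux α' α (fun l hlq => (hl l hlq).symm) h2 h1
    omega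
  let N := Fintype.card (Fin K → Fin (K + 1))
  have hcard : ∀ q : Fin K,
      (Finset.univ.filter (fun α : Fin K → Fin (K + 1) => c (y α) = q)).card * (K + 1) ≤ N := by
    intro q
    have h1 : (Finset.univ.filter (fun α : Fin K → Fin (K + 1) => c (y α) = q)).card * (K + 1)
        = ((Finset.univ.filter (fun α : Fin K → Fin (K + 1) => c (y α) = q)) ×ˢ
          (Finset.univ : Finset (Fin (K + 1)))).card := by
      rw [Finset.card_product]
      simp
    rw [h1]
    have h2 : N = (Finset.univ : Finset (Fin K → Fin (K + 1))).card := rfl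
    rw [h2]
    apply Finset.card_le_card_of_injOn (fun p => Function.update p.1 q p.2)
    · intro p _
      simp
    · rintro ⟨α, v⟩ hα ⟨α', v'⟩ hα' heq
      simp only [Finset.coe_product, Finset.coe_filter, Finset.mem_univ, true_and,
        Finset.coe_univ, Set.mem_prod, Set.mem_ofPred_eq, Set.mem_univ, and_true] at hα hα'
      have hv : v = v' := by
        have := congrFun heq q
        simpa using this
      have hl : ∀ l, l ≠ q → α l = α' l := by
        intro l hlq
        have := congrFun heq l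
        simpa [Function.update_of_ne hlq] using this
      have hq := key q α α' hl hα hα'
      have : α = α' := by
        funext l
        by_cases hlq : l = q
        · rw [hlq]; exact hq
        · exact hl l hlq
      rw [this, hv]
  have hsum : N = ∑ q : Fin K,
      (Finset.univ.filter (fun α : Fin K → Fin (K + 1) => c (y α) = q)).card := by
    have := Finset.card_eq_sum_card_fiberwise (f := fun α : Fin K → Fin (K + 1) => c (y α))
      (s := (Finset.univ : Finset (Fin K → Fin (K + 1)))) (t := (Finset.univ : Finset (Fin K)))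
      (fun _ _ => Finset.mem_coe.mpr (Finset.mem_univ _))
    simpa [N] using this
  have hpos : 0 < N := Fintype.card_pos
  have hle : N * (K + 1) ≤ K * N := by
    calc N * (K + 1) = ∑ q : Fin K,
      (Finset.univ.filter (fun α : Fin K → Fin (K + 1) => c (y α) = q)).card * (K + 1) := by
          rw [← Finset.sum_mul, ← hsum]
      _ ≤ ∑ _q : Fin K, N := Finset.sum_le_sum (fun q _ => hcard q)
      _ = K * N := by simp
  nlinarith

/-! ### Splittable ultrafilters -/

section Spl

variable {E : Type*} [AddCommGroup E]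

/-- For `t : ℕ → E`, keep the coordinates `l` with `a < l ≤ b` and apply `P` to the others,
and sum over `l < n + 2`. -/
def theta (P : E →+ E) (n a b : ℕ) (t : ℕ → E) : E :=
  ∑ l ∈ Finset.range (n + 2), if a < l ∧ l ≤ b then t l else P (t l)

theorem theta_add (P : E →+ E) (n a b : ℕ) (s t : ℕ → E) :
    theta P n a b (s + t) = theta P n a b s + theta P n a b t := by
  unfold theta
  rw [← Finset.sum_add_distrib]
  apply Finset.sum_congr rfl
  intro l _
  split_ifs <;> simp

/-- Splittable ultrafilters. -/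
def Spl (P : E →+ E) (n : ℕ) : Set (Ultrafilter E) :=
  {V | ∃ V' : Ultrafilter (ℕ → E), ∀ a b : ℕ, a < b → b ≤ n → V'.map (theta P n a b) = V}

theorem isClosed_Spl (P : E →+ E) (n : ℕ) : IsClosed (Spl P n) := by
  have h : Spl P n = Prod.fst '' {p : Ultrafilter E × Ultrafilter (ℕ → E) |
      ∀ a b : ℕ, a < b → b ≤ n → p.2.map (theta P n a b) = p.1} := by
    ext V
    constructor
    · rintro ⟨V', hV'⟩
      exact ⟨(V, V'), hV', rfl⟩
    · rintro ⟨⟨V1, V'⟩, hV', rfl⟩
      exact ⟨V', hV'⟩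
  rw [h]
  apply isClosedMap_fst_of_compactSpace
  have : {p : Ultrafilter E × Ultrafilter (ℕ → E) |
      ∀ a b : ℕ, a < b → b ≤ n → p.2.map (theta P n a b) = p.1} =
      ⋂ (a : ℕ) (b : ℕ) (_ : a < b) (_ : b ≤ n), {p : Ultrafilter E × Ultrafilter (ℕ → E) |
        p.2.map (theta P n a b) = p.1} := by
    ext p
    simp
  rw [this]
  refine isClosed_iInter fun a => isClosed_iInter fun b => isClosed_iInter fun _ =>
    isClosed_iInter fun _ => ?_
  exact isClosed_eq ((uf_continuous_map _).comp continuous_snd) continuous_fst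

theorem Spl_add (P : E →+ E) (n : ℕ) {U V : Ultrafilter E} (hU : U ∈ Spl P n)
    (hV : V ∈ Spl P n) : U + V ∈ Spl P n := by
  obtain ⟨U', hU'⟩ := hU
  obtain ⟨V', hV'⟩ := hV
  refine ⟨U' + V', fun a b hab hb => ?_⟩
  rw [uf_map_add _ (theta_add P n a b), hU' a b hab hb, hV' a b hab hb]

/-- The iterated sum of copies of `e` in coordinates `0, …, m`. -/
def tower (e : Ultrafilter E) : ℕ → Ultrafilter (ℕ → E)
  | 0 => e.map (fun x => Pi.single 0 x)
  | (m + 1) => tower e m + e.map (fun x => Pi.single (m + 1) x)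

theorem theta_single (P : E →+ E) (n a b m : ℕ) (hm : m < n + 2) (x : E) :
    theta P n a b (Pi.single m x) = if a < m ∧ m ≤ b then x else P x := by
  unfold theta
  rw [Finset.sum_eq_single m]
  · simp
  · intro l _ hlm
    simp [Pi.single_eq_of_ne hlm]
  · intro h
    exact absurd (Finset.mem_range.mpr hm) h

theorem tower_map (P : E →+ E) (n a b : ℕ) (hab : a < b) (e : Ultrafilter E)
    (he : e + e = e) :
    ∀ m : ℕ, m < n + 2 → (tower e m).map (theta P n a b) =
      if m ≤ a then e.map P else if m ≤ b then e.map P + e else e.map P + e + e.map P := by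
  have hPe : e.map P + e.map P = e.map P := by
    rw [← uf_map_add P (map_add P), he]
  intro m
  induction m with
  | zero =>
    intro hm
    simp only [tower, uf_map_map]
    simp only [Nat.zero_le, if_true]
    congr 1
    funext x
    simp [theta_single P n a b 0 hm]
  | succ m ih =>
    intro hm
    have ih' := ih (by omega)
    simp only [tower]
    rw [uf_map_add _ (theta_add P n a b), ih', uf_map_map]
    by_cases h1 : m + 1 ≤ a
    · have h2 : m ≤ a := by omega
      have h3 : (theta P n a b ∘ fun x => Pi.single (m + 1) x) = (P : E → E) := by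
        funext x
        simp only [Function.comp]
        rw [theta_single P n a b (m + 1) hm, if_neg (by omega)]
      rw [if_pos h2, if_pos h1, h3, hPe]
    · by_cases h2 : m + 1 ≤ b
      · have h3 : (theta P n a b ∘ fun x => Pi.single (m + 1) x) = (id : E → E) := by
          funext x
          simp only [Function.comp]
          rw [theta_single P n a b (m + 1) hm, if_pos (by omega)]
          rfl
        rw [if_neg h1, if_pos h2, h3]
        have hid : e.map (id : E → E) = e := Ultrafilter.map_id e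
        rw [hid]
        by_cases h4 : m ≤ a
        · rw [if_pos h4]
        · rw [if_neg h4, if_pos (by omega), add_assoc, he]
      · have h3 : (theta P n a b ∘ fun x => Pi.single (m + 1) x) = (P : E → E) := by
          funext x
          simp only [Function.comp]
          rw [theta_single P n a b (m + 1) hm, if_neg (by omega)]
        rw [if_neg h1, if_neg h2, h3]
        by_cases h4 : m ≤ b
        · rw [if_neg (by omega), if_pos h4]
        · rw [if_neg (by omega), if_neg h4, add_assoc, hPe]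

theorem idem_mem_Spl (P : E →+ E) (n : ℕ) (e : Ultrafilter E) (he : e + e = e)
    (h : e.map P + e + e.map P = e) : e ∈ Spl P n := by
  refine ⟨tower e (n + 1), fun a b hab hb => ?_⟩
  rw [tower_map P n a b hab e he (n + 1) (by omega), if_neg (by omega), if_neg (by omega), h]

/-- The pigeonhole principle for splittable ultrafilters. -/
theorem mem_of_Spl (P : E →+ E) (n : ℕ) (S : Set E)
    (hS : ∀ t : ℕ → E, ∃ a b : ℕ, a < b ∧ b ≤ n ∧ theta P n a b t ∈ S)
    {V : Ultrafilter E} (hV : V ∈ Spl P n) : S ∈ V := by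
  classical
  obtain ⟨V', hV'⟩ := hV
  by_contra hcon
  have h1 : ∀ a b : ℕ, a < b → b ≤ n → (theta P n a b) ⁻¹' Sᶜ ∈ V' := by
    intro a b hab hb
    have : Sᶜ ∈ V'.map (theta P n a b) := by
      rw [hV' a b hab hb]
      exact Ultrafilter.compl_mem_iff_notMem.mpr hcon
    exact this
  have h2 : (⋂ p ∈ ((Finset.range (n + 1)) ×ˢ (Finset.range (n + 1))).filter
      (fun p : ℕ × ℕ => p.1 < p.2), (theta P n p.1 p.2) ⁻¹' Sᶜ) ∈ (V' : Filter (ℕ → E)) := by
    rw [Filter.biInter_finset_mem]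
    intro p hp
    simp only [Finset.mem_filter, Finset.mem_product, Finset.mem_range] at hp
    exact h1 p.1 p.2 hp.2 (by omega)
  obtain ⟨t, ht⟩ := V'.nonempty_of_mem h2
  obtain ⟨a, b, hab, hb, hmem⟩ := hS t
  simp only [Set.mem_iInter] at ht
  have := ht (a, b) (by simp; omega)
  exact this hmem

end Spl


/-! ### The main construction on sequences in `ℤ × ℤ` -/

/-- The base group. -/
abbrev W : Type := ℤ × ℤ

/-- The unipotent map `(z, A) ↦ (z, A + z)`. -/
def T : W →+ W where
  toFun w := (w.1, w.2 + w.1)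
  map_zero' := by simp
  map_add' := by
    intro x y
    ext
    · simp
    · simp only [Prod.fst_add, Prod.snd_add]
      ring

@[simp] theorem T_fst (w : W) : (T w).1 = w.1 := rfl
@[simp] theorem T_snd (w : W) : (T w).2 = w.2 + w.1 := rfl

/-- The endomorphism `Π_i` of sequences. -/
def Pr (i : ℕ) : (ℕ → W) →+ (ℕ → W) where
  toFun t := fun j => if j < i then 0 else if j = i then t i else T (t i)
  map_zero' := by
    funext j
    simp
  map_add' := by
    intro s t
    funext j
    simp only [Pi.add_apply]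
    split_ifs <;> simp

theorem Pr_apply (i : ℕ) (t : ℕ → W) (j : ℕ) :
    Pr i t j = if j < i then 0 else if j = i then t i else T (t i) := rfl

theorem Pr_self (i : ℕ) (t : ℕ → W) : Pr i t i = t i := by
  simp [Pr_apply]

theorem Pr_Pr (i : ℕ) (t : ℕ → W) : Pr i (Pr i t) = Pr i t := by
  funext j
  simp [Pr_apply]

theorem Pr_Pr_lt (l i : ℕ) (h : l < i) (t : ℕ → W) : Pr l (Pr i t) = 0 := by
  funext j
  simp [Pr_apply, h]

theorem map_const_uf {E F : Type*} (x : F) (U : Ultrafilter E) :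
    U.map (fun _ => x) = (pure x : Ultrafilter F) := by
  apply Ultrafilter.coe_inj.mp
  apply Filter.ext'
  intro p
  simp

theorem exists_idem_int : ∃ p : Ultrafilter ℤ, p + p = p ∧ {z : ℤ | 0 < z} ∈ p := by
  obtain ⟨p, hp, hpp⟩ := exists_idempotent_in_compact_add_subsemigroup
    (M := Ultrafilter ℤ) Ultrafilter.continuous_add_left {U : Ultrafilter ℤ | {z : ℤ | 0 < z} ∈ U}
    ⟨pure 1, by
      show {z : ℤ | 0 < z} ∈ (pure 1 : Ultrafilter ℤ)
      rw [Ultrafilter.mem_pure]
      show (0 : ℤ) < 1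
      norm_num⟩
    (ultrafilter_isClosed_basic _).isCompact
    (by
      intro U hU V hV
      show ∀ᶠ z : ℤ in ((U + V : Ultrafilter ℤ) : Filter ℤ), 0 < z
      rw [Ultrafilter.eventually_add]
      have hU' : ∀ᶠ z : ℤ in (U : Filter ℤ), 0 < z := hU
      have hV' : ∀ᶠ z : ℤ in (V : Filter ℤ), 0 < z := hV
      filter_upwards [hU'] with x hx
      filter_upwards [hV'] with y hy
      exact add_pos hx hy)
  exact ⟨p, hpp, hp⟩

/-- The positive sequences. -/
def PosSet : Set (ℕ → W) := {t | ∀ l, 0 < (t l).1}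
/-- The nonnegative sequences. -/
def NonnegSet : Set (ℕ → W) := {t | ∀ l, 0 ≤ (t l).1}

theorem exists_chain (n : ℕ) : ∀ i : ℕ, ∃ e : Ultrafilter (ℕ → W),
    e + e = e ∧ PosSet ∈ e ∧ ∀ l ≤ i, e ∈ Spl (Pr l) n := by
  intro i
  induction i with
  | zero =>
    obtain ⟨p, hpp, hp⟩ := exists_idem_int
    let C : ℤ → (ℕ → W) := fun z => Pr 0 (fun _ => (z, 0))
    have hC : ∀ x y, C (x + y) = C x + C y := by
      intro x y
      simp only [C]
      rw [← map_add]
      congr 1
    have hPC : (Pr 0 : (ℕ → W) → (ℕ → W)) ∘ C = C := by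
      funext z
      simp only [Function.comp, C, Pr_Pr]
    refine ⟨p.map C, ?_, ?_, ?_⟩
    · rw [← uf_map_add C hC, hpp]
    · show C ⁻¹' PosSet ∈ p
      filter_upwards [hp] with z hz
      have hz' : 0 < z := hz
      intro l
      simp only [C, Pr_apply]
      split_ifs with h1 h2
      · omega
      · exact hz'
      · exact hz'
    · intro l hl
      obtain rfl : l = 0 := by omega
      apply idem_mem_Spl
      · rw [← uf_map_add C hC, hpp]
      · rw [uf_map_map, hPC, ← uf_map_add C hC, hpp, ← uf_map_add C hC, hpp]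
  | succ i ih =>
    obtain ⟨e, he, hpos, hspl⟩ := ih
    set f : Ultrafilter (ℕ → W) := e.map (Pr (i + 1)) with hf
    have hff : f + f = f := by
      rw [hf, ← uf_map_add _ (map_add (Pr (i + 1))), he]
    have hPf : f.map (Pr (i + 1)) = f := by
      rw [hf, uf_map_map]
      congr 1
      funext t
      simp only [Function.comp, Pr_Pr]
    have hfspl : ∀ l ≤ i, f ∈ Spl (Pr l) n := by
      intro l hl
      have h0 : f.map (Pr l) = pure 0 := by
        rw [hf, uf_map_map]
        have : ((Pr l : (ℕ → W) → (ℕ → W)) ∘ (Pr (i + 1))) = fun _ => 0 := by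
          funext t
          simp only [Function.comp, Pr_Pr_lt l (i + 1) (by omega)]
        rw [this, map_const_uf]
      apply idem_mem_Spl _ _ _ hff
      rw [h0, uf_pure_zero_add, uf_add_pure_zero]
    -- the compact subsemigroup
    let M : Set (Ultrafilter (ℕ → W)) := {x | (∀ l ≤ i, x ∈ Spl (Pr l) n) ∧
      x.map (Pr (i + 1)) = f ∧ NonnegSet ∈ x}
    let I : Set (Ultrafilter (ℕ → W)) := {x | x ∈ M ∧ PosSet ∈ x}
    have hMadd : ∀ x ∈ M, ∀ y ∈ M, x + y ∈ M := by
      rintro x ⟨hx1, hx2, hx3⟩ y ⟨hy1, hy2, hy3⟩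
      refine ⟨fun l hl => Spl_add _ _ (hx1 l hl) (hy1 l hl), ?_, ?_⟩
      · rw [uf_map_add _ (map_add (Pr (i + 1))), hx2, hy2, hff]
      · show ∀ᶠ t in (x + y : Ultrafilter (ℕ → W)), t ∈ NonnegSet
        rw [Ultrafilter.eventually_add]
        have hx' : ∀ᶠ t in (x : Filter (ℕ → W)), t ∈ NonnegSet := hx3
        have hy' : ∀ᶠ t in (y : Filter (ℕ → W)), t ∈ NonnegSet := hy3
        filter_upwards [hx'] with s hs
        filter_upwards [hy'] with t ht l
        exact add_nonneg (hs l) (ht l)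
    have hIleft : ∀ x ∈ M, ∀ y ∈ I, x + y ∈ I := by
      rintro x hx y ⟨hy, hyp⟩
      refine ⟨hMadd x hx y hy, ?_⟩
      show ∀ᶠ t in (x + y : Ultrafilter (ℕ → W)), t ∈ PosSet
      rw [Ultrafilter.eventually_add]
      have hx' : ∀ᶠ t in (x : Filter (ℕ → W)), t ∈ NonnegSet := hx.2.2
      have hy' : ∀ᶠ t in (y : Filter (ℕ → W)), t ∈ PosSet := hyp
      filter_upwards [hx'] with s hs
      filter_upwards [hy'] with t ht l
      exact add_pos_of_nonneg_of_pos (hs l) (ht l)
    have hIright : ∀ x ∈ I, ∀ y ∈ M, x + y ∈ I := by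
      rintro x ⟨hx, hxp⟩ y hy
      refine ⟨hMadd x hx y hy, ?_⟩
      show ∀ᶠ t in (x + y : Ultrafilter (ℕ → W)), t ∈ PosSet
      rw [Ultrafilter.eventually_add]
      have hx' : ∀ᶠ t in (x : Filter (ℕ → W)), t ∈ PosSet := hxp
      have hy' : ∀ᶠ t in (y : Filter (ℕ → W)), t ∈ NonnegSet := hy.2.2
      filter_upwards [hx'] with s hs
      filter_upwards [hy'] with t ht l
      exact add_pos_of_pos_of_nonneg (hs l) (ht l)
    have hIclosed : IsClosed I := by
      have h1 : I = (⋂ (l : ℕ) (_ : l ≤ i), Spl (Pr l) n) ∩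
          ({x | x.map (Pr (i + 1)) = f} ∩ ({x | NonnegSet ∈ x} ∩ {x | PosSet ∈ x})) := by
        ext x
        simp only [I, M, Set.mem_inter_iff, Set.mem_iInter, Set.mem_ofPred_eq]
        tauto
      rw [h1]
      refine IsClosed.inter (isClosed_iInter fun l => isClosed_iInter fun _ => isClosed_Spl _ _)
        (IsClosed.inter ?_ (IsClosed.inter (ultrafilter_isClosed_basic _)
          (ultrafilter_isClosed_basic _)))
      exact isClosed_eq (uf_continuous_map _) continuous_const
    have hfM : f ∈ M := by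
      refine ⟨hfspl, hPf, ?_⟩
      show (Pr (i + 1)) ⁻¹' NonnegSet ∈ e
      filter_upwards [hpos] with t ht l
      simp only [Pr_apply]
      split_ifs with h1 h2
      · simp
      · exact (ht _).le
      · exact (ht _).le
    have heI : e ∈ I := by
      refine ⟨⟨hspl, rfl, ?_⟩, hpos⟩
      filter_upwards [hpos] with t ht l
      exact (ht l).le
    -- idempotent in `I + f`
    obtain ⟨g, hg, hgg⟩ := exists_idempotent_in_compact_add_subsemigroup
      (M := Ultrafilter (ℕ → W)) Ultrafilter.continuous_add_left ((fun x => x + f) '' I)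
      ⟨e + f, e, heI, rfl⟩
      (hIclosed.isCompact.image (Ultrafilter.continuous_add_left f))
      (by
        rintro _ ⟨x, hx, rfl⟩ _ ⟨y, hy, rfl⟩
        refine ⟨x + (f + y), ?_, ?_⟩
        · exact hIright x hx _ (hIleft f hfM y hy).1
        · simp only [add_assoc])
    obtain ⟨x, hx, hxg⟩ := hg
    have hgf : g + f = g := by
      rw [← hxg]
      show x + f + f = x + f
      rw [add_assoc, hff]
    have hgI : g ∈ I := by
      rw [← hxg]
      exact hIright x hx f hfM
    refine ⟨f + g, ?_, ?_, ?_⟩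
    · rw [add_assoc, ← add_assoc g f g, hgf, hgg]
    · exact (hIleft f hfM g hgI).2
    · have hM := (hIleft f hfM g hgI).1
      intro l hl
      rcases Nat.lt_or_ge i l with h | h
      · obtain rfl : l = i + 1 := by omega
        apply idem_mem_Spl
        · rw [add_assoc, ← add_assoc g f g, hgf, hgg]
        · rw [hM.2.1, ← add_assoc, hff, add_assoc, hgf]
      · exact hM.1 l h

/-- The Ramsey statement. -/
theorem ramsey {K : ℕ} (c : W → W → Fin K) :
    ∃ ζ ζ' y₁ y₂ y₃ : W, 0 < ζ.1 ∧ c ζ y₁ = c ζ y₂ ∧ c ζ y₁ = c ζ' y₃ ∧ y₁ - y₂ = T ζ - ζ' := by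
  classical
  choose q hq using fun ζ : W => exists_color (c ζ)
  obtain ⟨e, he, hpos, hspl⟩ := exists_chain K K
  have hgood : ∀ i j : ℕ, i < j → i ≤ K →
      {t : ℕ → W | ∃ y₁ y₂ : W, c (t i) y₁ = q (t i) ∧ c (t i) y₂ = q (t i) ∧
        t j - T (t i) = y₁ - y₂} ∈ e := by
    intro i j hij hiK
    refine mem_of_Spl (Pr i) K _ ?_ (hspl i hiK)
    intro t
    let ζ : W := ∑ l ∈ Finset.range (K + 2), t l i
    let G : ℕ → W := fun a => ∑ l ∈ Finset.range (K + 2),
      if l ≤ a then (t l j - T (t l i)) else 0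
    obtain ⟨a, b, hab, hb, y₁, y₂, h1, h2, h3⟩ := hq ζ G
    refine ⟨a, b, hab, hb, y₁, y₂, ?_⟩
    have hi : theta (Pr i) K a b t i = ζ := by
      simp only [theta, Finset.sum_apply, ζ]
      apply Finset.sum_congr rfl
      intro l _
      split_ifs
      · rfl
      · exact Pr_self i _
    have hj : theta (Pr i) K a b t j - T (theta (Pr i) K a b t i) = G b - G a := by
      rw [hi]
      simp only [theta, Finset.sum_apply, ζ, G, map_sum]
      rw [← Finset.sum_sub_distrib, ← Finset.sum_sub_distrib]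
      apply Finset.sum_congr rfl
      intro l _
      by_cases hl1 : l ≤ a
      · rw [if_neg (by omega), if_pos (by omega), if_pos hl1]
        rw [Pr_apply, if_neg (by omega), if_neg (by omega)]
        simp
      · by_cases hl2 : l ≤ b
        · rw [if_pos (by omega), if_pos hl2, if_neg hl1]
          simp
        · rw [if_neg (by omega), if_neg hl2, if_neg hl1]
          rw [Pr_apply, if_neg (by omega), if_neg (by omega)]
          simp
    rw [hi] at hj ⊢
    exact ⟨h1, h2, by rw [hj, h3]⟩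
  -- choose the sequence
  have hall : (PosSet ∩ ⋂ p ∈ ((Finset.range (K + 1)) ×ˢ (Finset.range (K + 1))).filter
      (fun p : ℕ × ℕ => p.1 < p.2),
      {t : ℕ → W | ∃ y₁ y₂ : W, c (t p.1) y₁ = q (t p.1) ∧ c (t p.1) y₂ = q (t p.1) ∧
        t p.2 - T (t p.1) = y₁ - y₂}) ∈ (e : Filter (ℕ → W)) := by
    apply Filter.inter_mem hpos
    rw [Filter.biInter_finset_mem]
    intro p hp
    simp only [Finset.mem_filter, Finset.mem_product, Finset.mem_range] at hp
    exact hgood p.1 p.2 hp.2 (by omega)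
  obtain ⟨t, ht1, ht2⟩ := e.nonempty_of_mem hall
  simp only [Set.mem_iInter] at ht2
  -- pigeonhole on the colours
  have hpig : ∃ i j : Fin (K + 1), i ≠ j ∧ q (t i) = q (t j) := by
    obtain ⟨i, j, hij, h⟩ := Fintype.exists_ne_map_eq_of_card_lt
      (fun i : Fin (K + 1) => q (t i)) (by simp)
    exact ⟨i, j, hij, h⟩
  have hpig' : ∃ i j : ℕ, i < j ∧ j ≤ K ∧ q (t i) = q (t j) := by
    obtain ⟨i, j, hij, h⟩ := hpig
    rcases lt_or_gt_of_ne hij with hlt | hlt
    · exact ⟨i, j, hlt, Nat.lt_succ_iff.mp j.2, h⟩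
    · exact ⟨j, i, hlt, Nat.lt_succ_iff.mp i.2, h.symm⟩
  obtain ⟨i, j, hij, hj, hcol⟩ := hpig'
  obtain ⟨y₁, y₂, h1, h2, h3⟩ := ht2 (i, j) (by simp; omega)
  obtain ⟨_, _, _, _, y₃, _, h4, _, _⟩ := hq (t j) (fun _ => 0)
  refine ⟨t i, t j, y₂, y₁, y₃, ht1 i, ?_, ?_, ?_⟩
  · rw [h1, h2]
  · rw [h2, h4, hcol]
  · have h3' : t j - T (t i) = y₁ - y₂ := h3
    rw [← neg_sub y₁ y₂, ← h3', neg_sub]

/-! ### Transfer to `ZMod (2 ^ (4 * n))` -/

/-- Ultralimit of colours. -/
theorem exists_limit_color {K : ℕ} (f : ℕ → Fin K) :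
    ∃ q : Fin K, ∀ᶠ n in (hyperfilter ℕ : Filter ℕ), f n = q := by
  classical
  by_contra hcon
  push Not at hcon
  have h1 : ∀ q : Fin K, ∀ᶠ n in (hyperfilter ℕ : Filter ℕ), f n ≠ q := by
    intro q
    exact hcon q
  have h2 : ∀ᶠ n in (hyperfilter ℕ : Filter ℕ), ∀ q : Fin K, f n ≠ q :=
    Filter.eventually_all.mpr h1
  obtain ⟨n, hn⟩ := h2.exists
  exact hn (f n) rfl

/-- The embedding of `(ℤ × ℤ) × (ℤ × ℤ)` in `ℤ / 2 ^ (4 n)`. -/
def Phi (n : ℕ) (ζ y : W) : ZMod (2 ^ (4 * n)) :=
  (ζ.1 : ZMod (2 ^ (4 * n))) + 2 ^ n * (ζ.2 : ZMod (2 ^ (4 * n))) +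
    2 ^ (2 * n) * (y.1 : ZMod (2 ^ (4 * n))) + 2 ^ (3 * n) * (y.2 : ZMod (2 ^ (4 * n)))

theorem Phi_rel (n : ℕ) (ζ ζ' y₁ y₂ y₃ : W) (h : y₁ - y₂ = T ζ - ζ') :
    Phi n ζ y₁ - (1 + 2 ^ (2 * n) + 2 ^ (3 * n)) * Phi n ζ y₂ + 2 ^ (2 * n) * Phi n ζ' y₃ = 0 := by
  have h0 : (2 : ZMod (2 ^ (4 * n))) ^ (4 * n) = 0 := by
    have := ZMod.natCast_self (2 ^ (4 * n))
    push_cast at this
    exact this
  have h1 : y₁.1 - y₂.1 = ζ.1 - ζ'.1 := by
    have := congrArg Prod.fst h
    simpa using this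
  have h2 : y₁.2 - y₂.2 = ζ.2 + ζ.1 - ζ'.2 := by
    have := congrArg Prod.snd h
    simpa using this
  have h1' : ((y₁.1 : ℤ) : ZMod (2 ^ (4 * n))) = y₂.1 + (ζ.1 - ζ'.1) := by
    have : y₁.1 = y₂.1 + (ζ.1 - ζ'.1) := by linarith
    rw [this]
    push_cast
    ring
  have h2' : ((y₁.2 : ℤ) : ZMod (2 ^ (4 * n))) = y₂.2 + (ζ.2 + ζ.1 - ζ'.2) := by
    have : y₁.2 = y₂.2 + (ζ.2 + ζ.1 - ζ'.2) := by linarith
    rw [this]
    push_cast
    ring
  unfold Phi
  rw [h1', h2']
  have e4 : (2 : ZMod (2 ^ (4 * n))) ^ (4 * n) = 2 ^ n * 2 ^ n * 2 ^ n * 2 ^ n := by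
    rw [← pow_add, ← pow_add, ← pow_add]
    congr 1
    ring
  have e3 : (2 : ZMod (2 ^ (4 * n))) ^ (3 * n) = 2 ^ n * 2 ^ n * 2 ^ n := by
    rw [← pow_add, ← pow_add]
    congr 1
    ring
  have e2 : (2 : ZMod (2 ^ (4 * n))) ^ (2 * n) = 2 ^ n * 2 ^ n := by
    rw [← pow_add]
    congr 1
    ring
  rw [e4] at h0
  rw [e2, e3]
  generalize (2 : ZMod (2 ^ (4 * n))) ^ n = t at *
  have h5 : t * t * t * t * t = 0 := by rw [h0, zero_mul]
  have h6 : t * t * t * t * t * t = 0 := by rw [h5, zero_mul]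
  linear_combination (-(ζ.2 : ZMod (2 ^ (4 * n))) - (y₂.1 : ZMod (2 ^ (4 * n)))
    - t * (y₂.1 : ZMod (2 ^ (4 * n))) - t * (y₂.2 : ZMod (2 ^ (4 * n)))
    - t * t * (y₂.2 : ZMod (2 ^ (4 * n)))
    + (y₃.1 : ZMod (2 ^ (4 * n))) + t * (y₃.2 : ZMod (2 ^ (4 * n)))) * h0

theorem dvd_iff_ZMod {n e : ℕ} (he : e ≤ n) (z : ℤ) :
    (2 : ZMod (2 ^ n)) ^ e ∣ (z : ZMod (2 ^ n)) ↔ (2 : ℤ) ^ e ∣ z := by
  constructor
  · rintro ⟨w, hw⟩
    obtain ⟨w', rfl⟩ := ZMod.intCast_surjective w
    have h1 : ((z - 2 ^ e * w' : ℤ) : ZMod (2 ^ n)) = 0 := by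
      push_cast
      rw [hw, sub_self]
    rw [ZMod.intCast_zmod_eq_zero_iff_dvd] at h1
    have h2 : (2 : ℤ) ^ e ∣ ((2 ^ n : ℕ) : ℤ) := by
      push_cast
      exact pow_dvd_pow 2 he
    have h3 : (2 : ℤ) ^ e ∣ z - 2 ^ e * w' := h2.trans h1
    have h4 : (2 : ℤ) ^ e ∣ 2 ^ e * w' := dvd_mul_right _ _
    have h5 := dvd_add h3 h4
    simpa using h5
  · rintro ⟨w, rfl⟩
    refine ⟨(w : ZMod (2 ^ n)), ?_⟩
    push_cast
    ring

end Pool.Agent.H33.ModRado
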